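import Mathlib

/-!
# The correction factor `2^j T^j(n) / (3^o n)`
-/

set_option autoImplicit false

namespace Pool.Agent.Lib.MP_edb5be_nt.H26U

open Function Finset

/-- The accelerated 3x+1 map on the natural numbers. -/
def Tn (n : ℕ) : ℕ := if n % 2 = 0 then n / 2 else (3 * n + 1) / 2

/-- The number of odd terms among `n, T n, ..., T^(j-1) n`. -/
def od (n j : ℕ) : ℕ := ((range j).filter fun i => Tn^[i] n % 2 = 1).card

theorem Tn_even {n : ℕ} (h : n % 2 = 0) : 2 * Tn n = n := by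
  unfold Tn
  split_ifs
  omega

theorem Tn_odd {n : ℕ} (h : n % 2 ≠ 0) : 2 * Tn n = 3 * n + 1 := by
  rw [Tn, if_neg h]
  omega

theorem Tn_pos {n : ℕ} (h : 1 ≤ n) : 1 ≤ Tn n := by
  unfold Tn
  split_ifs <;> omega

theorem iter_pos {n : ℕ} (h : 1 ≤ n) (i : ℕ) : 1 ≤ Tn^[i] n := by
  induction i with
  | zero => exact h
  | succ i ih => rw [iterate_succ_apply']; exact Tn_pos ih

theorem od_zero (n : ℕ) : od n 0 = 0 := by simp [od]

theorem od_succ (n j : ℕ) : od n (j + 1) = od n j + if Tn^[j] n % 2 = 0 then 0 else 1 := by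
  unfold od
  rw [range_add_one, filter_insert]
  by_cases h : Tn^[j] n % 2 = 1
  · rw [if_pos h, if_neg (by omega), card_insert_of_notMem (by simp)]
  · rw [if_neg h, if_pos (by omega)]
    rfl

theorem od_add (n a b : ℕ) : od n (a + b) = od n a + od (Tn^[a] n) b := by
  induction b with
  | zero => simp [od_zero]
  | succ b ih =>
    rw [← Nat.add_assoc, od_succ, od_succ, ih, ← iterate_add_apply, Nat.add_comm b a]
    omega

/-- the correction factor -/
noncomputable def rt (n j : ℕ) : ℝ := 2 ^ j * (Tn^[j] n : ℝ) / (3 ^ od n j * n)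

theorem rt_zero {n : ℕ} (h : 1 ≤ n) : rt n 0 = 1 := by
  rw [rt, od_zero]
  have : (n : ℝ) ≠ 0 := by
    have : (0 : ℝ) < n := by exact_mod_cast h
    exact this.ne'
  simp [this]

theorem rt_add {n : ℕ} (h : 1 ≤ n) (a b : ℕ) : rt n (a + b) = rt n a * rt (Tn^[a] n) b := by
  have h1 : (0 : ℝ) < n := by exact_mod_cast h
  have h2 : (0 : ℝ) < (Tn^[a] n : ℝ) := by exact_mod_cast iter_pos h a
  rw [rt, rt, rt, od_add, ← iterate_add_apply, Nat.add_comm b a, pow_add, pow_add]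
  field_simp

theorem rt_one {n : ℕ} (h : 1 ≤ n) :
    rt n 1 = if n % 2 = 0 then 1 else 1 + 1 / (3 * (n : ℝ)) := by
  have h1 : (0 : ℝ) < n := by exact_mod_cast h
  rw [rt, od_succ, od_zero]
  simp only [iterate_zero, id, iterate_one, zero_add, pow_one]
  by_cases h2 : n % 2 = 0
  · rw [if_pos h2, if_pos h2]
    have h3 : (2 : ℝ) * (Tn n : ℝ) = n := by exact_mod_cast Tn_even h2
    rw [h3, pow_zero, one_mul, div_self h1.ne']
  · rw [if_neg h2, if_neg h2]
    have h3 : (2 : ℝ) * (Tn n : ℝ) = 3 * n + 1 := by exact_mod_cast Tn_odd h2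
    rw [h3, pow_one]
    field_simp

theorem rt_succ {n : ℕ} (h : 1 ≤ n) (j : ℕ) : rt n (j + 1) = rt n j *
    if Tn^[j] n % 2 = 0 then 1 else 1 + 1 / (3 * (Tn^[j] n : ℝ)) := by
  rw [rt_add h j 1, rt_one (iter_pos h j)]

theorem rt_pos {n : ℕ} (h : 1 ≤ n) (j : ℕ) : 0 < rt n j := by
  have h1 : (0 : ℝ) < n := by exact_mod_cast h
  have h2 : (0 : ℝ) < (Tn^[j] n : ℝ) := by exact_mod_cast iter_pos h j
  rw [rt]
  positivity

/-- the factor of one step -/
theorem step_exp {n : ℕ} (h : 1 ≤ n) :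
    (if n % 2 = 0 then 1 else 1 + 1 / (3 * (n : ℝ))) ≤
      Real.exp (1 / 2 * (1 / (n : ℝ) - 1 / 2 * (1 / (Tn n : ℝ)))) := by
  have h1 : (0 : ℝ) < n := by exact_mod_cast h
  by_cases h2 : n % 2 = 0
  · rw [if_pos h2]
    have h3 : (2 : ℝ) * (Tn n : ℝ) = n := by exact_mod_cast Tn_even h2
    rw [← h3]
    have h4 : (0 : ℝ) < (Tn n : ℝ) := by exact_mod_cast Tn_pos h
    rw [show (1 : ℝ) / 2 * (1 / (2 * (Tn n : ℝ)) - 1 / 2 * (1 / (Tn n : ℝ))) = 0 by
      field_simp; ring]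
    rw [Real.exp_zero]
  · rw [if_neg h2]
    have h3 : (2 : ℝ) * (Tn n : ℝ) = 3 * n + 1 := by exact_mod_cast Tn_odd h2
    have h4 : (Tn n : ℝ) = (3 * n + 1) / 2 := by linarith
    rw [h4]
    have h5 : 1 / (3 * (n : ℝ)) ≤ 1 / 2 * (1 / (n : ℝ) - 1 / 2 * (1 / ((3 * n + 1) / 2))) := by
      have e1 : (1 : ℝ) / 2 * (1 / (n : ℝ) - 1 / 2 * (1 / ((3 * n + 1) / 2))) =
          (2 * n + 1) / (2 * n * (3 * n + 1)) := by
        field_simp
        ring
      rw [e1, div_le_div_iff₀ (by positivity) (by positivity)]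
      nlinarith
    calc 1 + 1 / (3 * (n : ℝ)) = 1 / (3 * (n : ℝ)) + 1 := by ring
      _ ≤ Real.exp (1 / (3 * (n : ℝ))) := Real.add_one_le_exp _
      _ ≤ _ := Real.exp_le_exp.2 h5

theorem rt_le_aux {n : ℕ} (h : 1 ≤ n) (j : ℕ) : rt n j ≤
    Real.exp (1 / 2 * ∑ i ∈ range j, (1 / (Tn^[i] n : ℝ) - 1 / 2 * (1 / (Tn^[i + 1] n : ℝ)))) := by
  induction j with
  | zero => rw [rt_zero h]; simp
  | succ j ih =>
    rw [rt_succ h, sum_range_succ, mul_add, Real.exp_add]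
    have h1 := step_exp (iter_pos h j)
    rw [← iterate_succ_apply' Tn j n] at h1
    refine mul_le_mul ih h1 ?_ (Real.exp_pos _).le
    have h2 : (0 : ℝ) < (Tn^[j] n : ℝ) := by exact_mod_cast iter_pos h j
    split_ifs <;> positivity

/-- The correction factor and the sum of the reciprocals. -/
theorem rt_le {n : ℕ} (h : 1 ≤ n) (j : ℕ) : rt n j ≤
    Real.exp (1 / 4 * (∑ i ∈ range j, 1 / (Tn^[i] n : ℝ) + 1 / n)) := by
  refine (rt_le_aux h j).trans (Real.exp_le_exp.2 ?_)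
  have h1 : ∑ i ∈ range j, 1 / (Tn^[i + 1] n : ℝ) =
      ∑ i ∈ range j, 1 / (Tn^[i] n : ℝ) + 1 / (Tn^[j] n : ℝ) - 1 / n := by
    have e1 := sum_range_succ (fun i => 1 / (Tn^[i] n : ℝ)) j
    have e2 := sum_range_succ' (fun i => 1 / (Tn^[i] n : ℝ)) j
    simp only [iterate_zero, id] at e2
    linarith
  rw [sum_sub_distrib, ← mul_sum, h1]
  have h2 : 0 ≤ 1 / (Tn^[j] n : ℝ) := by positivity
  linarith

end Pool.Agent.Lib.MP_edb5be_nt.H26U
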