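import Mathlib
import Pool.Agent.Lib.MP_edb5be_nt.H26U.Rat

/-!
# The correction factor of the terms below `2^16`
-/

set_option autoImplicit false

namespace Pool.Agent.Lib.MP_edb5be_nt.H26U

open Function

/-- run until the term is below `L`, then check `A y D ≤ F B` -/
noncomputable def run (L F D : ℕ) (fuel : ℕ) : ℕ → ℕ → ℕ → Bool :=
  Nat.rec (motive := fun _ => ℕ → ℕ → ℕ → Bool) (fun _ _ _ => false)
    (fun _ ih y A B => bif Nat.ble L y then
        (bif Nat.beq (Nat.mod y 2) 0 then ih (Nat.div y 2) (Nat.mul 2 A) B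
          else ih (Nat.div (Nat.succ (Nat.mul 3 y)) 2) (Nat.mul 2 A) (Nat.mul 3 B))
      else Nat.ble (Nat.mul (Nat.mul A y) D) (Nat.mul F B)) fuel

theorem od_one_add (y j : ℕ) : od y (j + 1) = (if y % 2 = 0 then 0 else 1) + od (Tn y) j := by
  have h := od_add y 1 j
  have h1 : od y 1 = if y % 2 = 0 then 0 else 1 := by
    have h2 := od_succ y 0
    rw [od_zero, Nat.zero_add, Nat.zero_add, iterate_zero, id] at h2
    exact h2
  rw [Nat.add_comm 1 j, h1, iterate_one] at h
  exact h

theorem run_sound (L F D : ℕ) : ∀ (fuel y A B : ℕ), run L F D fuel y A B = true →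
    ∀ j, (∀ i < j, L ≤ Tn^[i] y) → A * 2 ^ j * Tn^[j] y * D ≤ F * B * 3 ^ od y j := by
  intro fuel
  induction fuel with
  | zero => intro y A B h; cases h
  | succ fuel ih =>
    intro y A B h j hj
    have e1 : run L F D (fuel + 1) y A B = bif Nat.ble L y then
        (bif Nat.beq (Nat.mod y 2) 0 then run L F D fuel (Nat.div y 2) (Nat.mul 2 A) B
          else run L F D fuel (Nat.div (Nat.succ (Nat.mul 3 y)) 2) (Nat.mul 2 A) (Nat.mul 3 B))
      else Nat.ble (Nat.mul (Nat.mul A y) D) (Nat.mul F B) := rfl
    rw [e1] at h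
    rcases hb : Nat.ble L y with _ | _
    · rw [hb, cond_false] at h
      have h1 := Nat.le_of_ble_eq_true h
      have h1' : A * y * D ≤ F * B := h1
      rcases Nat.eq_zero_or_pos j with rfl | hj0
      · rw [od_zero, pow_zero, pow_zero, mul_one, mul_one]
        exact h1'
      · have h2 := hj 0 hj0
        rw [iterate_zero, id] at h2
        rw [Nat.ble_eq_true_of_le h2] at hb
        cases hb
    · rw [hb, cond_true] at h
      rcases hc : Nat.beq (Nat.mod y 2) 0 with _ | _
      · rw [hc, cond_false] at h
        have hodd : y % 2 ≠ 0 := by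
          intro hcon
          have h2 : Nat.beq (Nat.mod y 2) 0 = true := by
            show Nat.beq (y % 2) 0 = true
            rw [hcon]
            rfl
          rw [h2] at hc
          cases hc
        have hT : Nat.div (Nat.succ (Nat.mul 3 y)) 2 = Tn y := by
          show (3 * y + 1) / 2 = Tn y
          rw [Tn, if_neg hodd]
        rw [hT] at h
        rcases Nat.eq_zero_or_pos j with rfl | hj0
        · have h2 := ih _ _ _ h 0 (fun i hi => by omega)
          rw [od_zero, pow_zero, pow_zero, mul_one, mul_one, iterate_zero, id] at h2 ⊢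
          have h3 : Nat.mul 2 A * Tn y * D ≤ F * Nat.mul 3 B := h2
          have h4 : Nat.mul 2 A * Tn y * D = A * (2 * Tn y) * D := by
            show 2 * A * Tn y * D = _
            ring
          rw [h4, Tn_odd hodd] at h3
          have h5 : F * Nat.mul 3 B = 3 * (F * B) := by
            show F * (3 * B) = _
            ring
          rw [h5] at h3
          have h6 : 3 * (A * y * D) ≤ A * (3 * y + 1) * D := by
            have : A * (3 * y + 1) * D = 3 * (A * y * D) + A * D := by ring
            omega
          omega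
        · obtain ⟨k, rfl⟩ : ∃ k, j = k + 1 := ⟨j - 1, by omega⟩
          have h2 := ih _ _ _ h k (fun i hi => by
            have := hj (i + 1) (by omega)
            rwa [iterate_succ_apply] at this)
          rw [od_one_add, if_neg hodd, iterate_succ_apply]
          have h3 : Nat.mul 2 A * 2 ^ k * Tn^[k] (Tn y) * D ≤
              F * Nat.mul 3 B * 3 ^ od (Tn y) k := h2
          calc A * 2 ^ (k + 1) * Tn^[k] (Tn y) * D = Nat.mul 2 A * 2 ^ k * Tn^[k] (Tn y) * D := by
                show _ = 2 * A * 2 ^ k * Tn^[k] (Tn y) * D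
                ring
            _ ≤ F * Nat.mul 3 B * 3 ^ od (Tn y) k := h3
            _ = _ := by
                show F * (3 * B) * 3 ^ od (Tn y) k = _
                ring
      · rw [hc, cond_true] at h
        have heven : y % 2 = 0 := Nat.eq_of_beq_eq_true hc
        have hT : Nat.div y 2 = Tn y := by
          show y / 2 = Tn y
          rw [Tn, if_pos heven]
        rw [hT] at h
        rcases Nat.eq_zero_or_pos j with rfl | hj0
        · have h2 := ih _ _ _ h 0 (fun i hi => by omega)
          rw [od_zero, pow_zero, pow_zero, mul_one, mul_one, iterate_zero, id] at h2 ⊢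
          have h4 : Nat.mul 2 A * Tn y * D = A * (2 * Tn y) * D := by
            show 2 * A * Tn y * D = _
            ring
          have h3 : Nat.mul 2 A * Tn y * D ≤ F * B := h2
          rw [h4, Tn_even heven] at h3
          exact h3
        · obtain ⟨k, rfl⟩ : ∃ k, j = k + 1 := ⟨j - 1, by omega⟩
          have h2 := ih _ _ _ h k (fun i hi => by
            have := hj (i + 1) (by omega)
            rwa [iterate_succ_apply] at this)
          rw [od_one_add, if_pos heven, iterate_succ_apply, Nat.zero_add]
          calc A * 2 ^ (k + 1) * Tn^[k] (Tn y) * D = Nat.mul 2 A * 2 ^ k * Tn^[k] (Tn y) * D := by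
                show _ = 2 * A * 2 ^ k * Tn^[k] (Tn y) * D
                ring
            _ ≤ _ := h2

/-- check the odd numbers `s + 1, s + 3, ...` -/
noncomputable def runAll (L F D fuel s : ℕ) (n : ℕ) : Bool :=
  Nat.rec (motive := fun _ => Bool) true (fun i ih => and (run L F D fuel
    (Nat.succ (Nat.add s (Nat.mul 2 i))) 1 (Nat.succ (Nat.add s (Nat.mul 2 i)))) ih) n

theorem runAll_spec (L F D fuel s n : ℕ) (h : runAll L F D fuel s n = true) :
    ∀ i < n, run L F D fuel (s + 2 * i + 1) 1 (s + 2 * i + 1) = true := by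
  induction n with
  | zero => intro i hi; omega
  | succ n ih =>
    have e1 : runAll L F D fuel s (n + 1) = and (run L F D fuel (s + 2 * n + 1) 1
      (s + 2 * n + 1)) (runAll L F D fuel s n) := rfl
    rw [e1, Bool.and_eq_true] at h
    intro i hi
    rcases Nat.lt_or_ge i n with h1 | h1
    · exact ih h.2 i h1
    · have : i = n := by omega
      rw [this]
      exact h.1

theorem run_rt {L F D fuel x : ℕ} (hx : 1 ≤ x) (hD : 0 < D) (h : run L F D fuel x 1 x = true)
    (j : ℕ) (hj : ∀ i < j, L ≤ Tn^[i] x) : rt x j ≤ (F : ℝ) / D := by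
  have h1 := run_sound L F D fuel x 1 x h j hj
  have hx0 : (0 : ℝ) < x := by exact_mod_cast hx
  have hD0 : (0 : ℝ) < D := by exact_mod_cast hD
  have h2 : (2 : ℝ) ^ j * (Tn^[j] x : ℝ) * D ≤ F * x * 3 ^ od x j := by
    have h3 : ((1 * 2 ^ j * Tn^[j] x * D : ℕ) : ℝ) ≤ ((F * x * 3 ^ od x j : ℕ) : ℝ) := by
      exact_mod_cast h1
    push_cast at h3
    rw [one_mul] at h3
    exact h3
  rw [rt, div_le_div_iff₀ (by positivity) hD0]
  linarith

set_option maxRecDepth 100000 in
theorem low_base : runAll 2 12532 10000 250 0 2048 = true := by decide +kernel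
set_option maxRecDepth 100000 in
theorem low12 : runAll 4096 10013 10000 250 4096 2048 = true := by decide +kernel
set_option maxRecDepth 100000 in
theorem low13 : runAll 8192 10007 10000 250 8192 4096 = true := by decide +kernel
set_option maxRecDepth 100000 in
theorem low14 : runAll 16384 10004 10000 250 16384 8192 = true := by decide +kernel
set_option maxRecDepth 100000 in
theorem low15 : runAll 32768 10002 10000 250 32768 16384 = true := by decide +kernel

/-- the numbers below `4096` -/
theorem base_le (x : ℕ) (hx : 1 ≤ x) (hx2 : x < 4096) (j : ℕ) (hj : ∀ i < j, Tn^[i] x ≠ 1) :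
    rt x j ≤ 1.2532 := by
  induction x using Nat.strong_induction_on generalizing j with
  | _ x ih =>
    by_cases hodd : x % 2 = 0
    · rcases Nat.eq_zero_or_pos j with rfl | hj0
      · rw [rt_zero hx]
        norm_num
      · obtain ⟨k, rfl⟩ : ∃ k, j = 1 + k := ⟨j - 1, by omega⟩
        have hT := Tn_even hodd
        rw [rt_add hx, rt_one hx, if_pos hodd, one_mul, iterate_one]
        refine ih (Tn x) (by omega) (by omega) (by omega) k fun i hi => ?_
        have := hj (i + 1) (by omega)
        rwa [iterate_succ_apply] at this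
    · have h1 := runAll_spec _ _ _ _ _ _ low_base (x / 2) (by omega)
      rw [show 0 + 2 * (x / 2) + 1 = x by omega] at h1
      have h2 := run_rt hx (by norm_num) h1 j (fun i hi => by
        have h3 := hj i hi
        have h4 := iter_pos hx i
        omega)
      refine h2.trans ?_
      norm_num

/-- one dyadic block -/
theorem block (L F D fuel n : ℕ) (hL : 1 ≤ L) (hLn : L = 2 * n) (hD : 0 < D) (hF : D ≤ F)
    (h : runAll L F D fuel L n = true) (x : ℕ) (hx : L ≤ x) (hx2 : x < 2 * L) (j : ℕ)
    (hj : ∀ i < j, L ≤ Tn^[i] x) : rt x j ≤ (F : ℝ) / D := by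
  have hD0 : (0 : ℝ) < D := by exact_mod_cast hD
  have h1F : (1 : ℝ) ≤ (F : ℝ) / D := by
    rw [le_div_iff₀ hD0, one_mul]
    exact_mod_cast hF
  by_cases hodd : x % 2 = 0
  · rcases Nat.eq_zero_or_pos j with rfl | hj0
    · rw [rt_zero (by omega)]
      exact h1F
    · rcases Nat.eq_or_lt_of_le hj0 with h1 | h1
      · rw [← h1]
        show rt x 1 ≤ _
        rw [rt_one (by omega), if_pos hodd]
        exact h1F
      · have h2 := hj 1 h1
        rw [iterate_one] at h2
        have hT := Tn_even hodd
        omega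
  · have h1 := runAll_spec _ _ _ _ _ _ h ((x - L) / 2) (by omega)
    rw [show L + 2 * ((x - L) / 2) + 1 = x by omega] at h1
    exact run_rt (by omega) hD h1 j hj

/-- from one level to the next -/
theorem level (L F D fuel n : ℕ) (hL : 1 ≤ L) (hLn : L = 2 * n) (hD : 0 < D) (hF : D ≤ F)
    (h : runAll L F D fuel L n = true) (M : ℝ) (hM : 1 ≤ M)
    (hlow : ∀ x, 1 ≤ x → x < L → ∀ j, (∀ i < j, Tn^[i] x ≠ 1) → rt x j ≤ M) :
    ∀ x, 1 ≤ x → x < 2 * L → ∀ j, (∀ i < j, Tn^[i] x ≠ 1) → rt x j ≤ (F : ℝ) / D * M := by
  classical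
  intro x hx hx2 j hj
  have hD0 : (0 : ℝ) < D := by exact_mod_cast hD
  have h1F : (1 : ℝ) ≤ (F : ℝ) / D := by
    rw [le_div_iff₀ hD0, one_mul]
    exact_mod_cast hF
  rcases Nat.lt_or_ge x L with hxL | hxL
  · have h1 := hlow x hx hxL j hj
    nlinarith
  · by_cases hall : ∀ i < j, L ≤ Tn^[i] x
    · have h1 := block L F D fuel n hL hLn hD hF h x hxL hx2 j hall
      have h2 := rt_pos hx j
      nlinarith
    · push Not at hall
      obtain ⟨a, ha1, ha2, ha3⟩ : ∃ a, a < j ∧ Tn^[a] x < L ∧ ∀ i < a, L ≤ Tn^[i] x := by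
        have hex : ∃ i, i < j ∧ Tn^[i] x < L := hall
        obtain ⟨h1, h2⟩ := Nat.find_spec hex
        refine ⟨Nat.find hex, h1, h2, fun i hi => ?_⟩
        have h3 := Nat.find_min hex hi
        by_contra hcon
        exact h3 ⟨by omega, by omega⟩
      obtain ⟨b, rfl⟩ : ∃ b, j = a + b := ⟨j - a, by omega⟩
      rw [rt_add hx]
      have h1 := block L F D fuel n hL hLn hD hF h x hxL hx2 a ha3
      have h2 := hlow (Tn^[a] x) (iter_pos hx a) ha2 b (fun i hi => by
        rw [← iterate_add_apply]
        exact hj (i + a) (by omega))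
      exact mul_le_mul h1 h2 (rt_pos (iter_pos hx a) b).le (by linarith)

/-- All numbers below `2^16`. -/
theorem low_le (x : ℕ) (hx : 1 ≤ x) (hx2 : x < 65536) (j : ℕ) (hj : ∀ i < j, Tn^[i] x ≠ 1) :
    rt x j ≤ 1.257 := by
  have l12 := level 4096 10013 10000 250 2048 (by norm_num) (by norm_num) (by norm_num)
    (by norm_num) low12 1.2532 (by norm_num) base_le
  have l13 := level 8192 10007 10000 250 4096 (by norm_num) (by norm_num) (by norm_num)
    (by norm_num) low13 _ (by norm_num) l12
  have l14 := level 16384 10004 10000 250 8192 (by norm_num) (by norm_num) (by norm_num)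
    (by norm_num) low14 _ (by norm_num) l13
  have l15 := level 32768 10002 10000 250 16384 (by norm_num) (by norm_num) (by norm_num)
    (by norm_num) low15 _ (by norm_num) l14
  refine (l15 x hx hx2 j hj).trans ?_
  norm_num

end Pool.Agent.Lib.MP_edb5be_nt.H26U
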