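import Mathlib
import Pool.Agent.Lib.MP_edb5be_nt.H26U.Fun

/-!
# Properties of the grid
-/

set_option autoImplicit false

namespace Pool.Agent.Lib.MP_edb5be_nt.H26U

theorem aE_eq (a : ℕ) : aE a = 14 * a % 27 := rfl

theorem aO_eq (a : ℕ) : aO a = 14 * (3 * a + 1) % 27 := rfl

theorem hh_eq (j : ℕ) : hh j = HS >>> (40 * (j % 41)) % 1099511627776 * 2 ^ (j / 41) := rfl

theorem hh_add (j q : ℕ) : hh (41 * q + j) = 2 ^ q * hh j := by
  rw [hh_eq, hh_eq, show (41 * q + j) % 41 = j % 41 by omega,
    show (41 * q + j) / 41 = q + j / 41 by omega, pow_add]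
  ring

theorem hh_add41 (j : ℕ) : hh (j + 41) = 2 * hh j := by
  have := hh_add j 1
  rw [show 41 * 1 + j = j + 41 by omega, pow_one] at this
  exact this

theorem hh_small_mono : ∀ r < 41, hh r ≤ hh (r + 1) := by decide +kernel

theorem hh_small_lower : ∀ r < 41, 3000000000 ≤ hh r := by decide +kernel

theorem hh_succ (j : ℕ) : hh j ≤ hh (j + 1) := by
  have h := hh_small_mono (j % 41) (Nat.mod_lt _ (by norm_num))
  have e1 : hh j = 2 ^ (j / 41) * hh (j % 41) := by
    rw [← hh_add, show 41 * (j / 41) + j % 41 = j by omega]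
  have e2 : hh (j + 1) = 2 ^ (j / 41) * hh (j % 41 + 1) := by
    rw [← hh_add, show 41 * (j / 41) + (j % 41 + 1) = j + 1 by omega]
  rw [e1, e2]
  exact Nat.mul_le_mul_left _ h

theorem hh_mono : Monotone hh := monotone_nat_of_le_succ hh_succ

theorem hh_lower (j : ℕ) : 3000000000 * 2 ^ (j / 41) ≤ hh j := by
  have h := hh_small_lower (j % 41) (Nat.mod_lt _ (by norm_num))
  have e1 : hh j = 2 ^ (j / 41) * hh (j % 41) := by
    rw [← hh_add, show 41 * (j / 41) + j % 41 = j by omega]
  rw [e1, mul_comm]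
  exact Nat.mul_le_mul_left _ h

/-- even step -/
theorem hh_E (j : ℕ) : hh j ≤ 2 * hh (j - 41) := by
  rcases Nat.lt_or_ge j 41 with h | h
  · rw [show j - 41 = 0 by omega, ← hh_add41]
    exact hh_mono (by omega)
  · rw [← hh_add41, show j - 41 + 41 = j by omega]

theorem hh_O_small : ∀ j < 480, 3 * (2000000000 + hh j) * 100001 ≤
    200000 * (1000000000 + hh (j + sO j)) := by decide +kernel

theorem sO_large {j : ℕ} (h : 439 ≤ j) : sO j = 24 := by
  rw [sO]
  have : Nat.ble 439 j = true := Nat.ble_eq_true_of_le h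
  rw [this]
  rfl

/-- odd step -/
theorem hh_O (j : ℕ) : 3 * (2000000000 + hh j) * 100001 ≤
    200000 * (1000000000 + hh (j + sO j)) := by
  induction j using Nat.strong_induction_on with
  | _ j ih =>
    rcases Nat.lt_or_ge j 480 with h | h
    · exact hh_O_small j h
    · have h1 := ih (j - 41) (by omega)
      rw [sO_large (by omega)] at h1 ⊢
      have e1 : hh j = 2 * hh (j - 41) := by rw [← hh_add41, show j - 41 + 41 = j by omega]
      have e2 : hh (j + 24) = 2 * hh (j - 41 + 24) := by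
        rw [← hh_add41, show j - 41 + 24 + 41 = j + 24 by omega]
      rw [e1, e2]
      clear e1 e2 ih
      generalize hh (j - 41) = A at h1 ⊢
      generalize hh (j - 41 + 24) = B at h1 ⊢
      nlinarith [h1]

theorem KF_eq : ∀ a < 27, KF a = 1000000000 + hh (kk a) := by decide +kernel

theorem idx_spec (x : ℕ) : x ≤ 1000000000 + hh (idx x) := by
  rw [idx, idx2]
  rcases hb : Nat.ble x (Nat.add 1000000000 (hh (idx1 (Nat.sub x 1000000000)
    (qq (Nat.sub x 1000000000))))) with _ | _
  · rw [cond_false]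
    have h1 := hh_lower x
    have h2 : x / 41 < 2 ^ (x / 41) := Nat.lt_two_pow_self
    omega
  · rw [cond_true]
    exact Nat.le_of_ble_eq_true hb

end Pool.Agent.Lib.MP_edb5be_nt.H26U
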