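import Mathlib
import Pool.Agent.Lib.MP_edb5be_nt.H26U.Run

/-!
# The sum of the tolls
-/

set_option autoImplicit false

namespace Pool.Agent.Lib.MP_edb5be_nt.H26U

open Function H13 H26T

/-- number of steps of an element -/
def NN (y : ℤ) : ℕ := Nat.log 2 (y.natAbs / 108)

theorem NN_T {y : ℤ} (hy : 216 ≤ y.natAbs) : NN y ≤ NN (T y) + 1 := by
  have h1 : y.natAbs ≤ 2 * (T y).natAbs := by
    by_cases h : y % 2 = 0
    · have := two_mul_T_even h
      omega
    · have := two_mul_T_odd h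
      omega
  rw [NN, NN]
  have h2 : y.natAbs / 108 / 2 ≤ (T y).natAbs / 108 := by omega
  have h3 := Nat.log_mono_right (b := 2) h2
  rw [Nat.log_div_base] at h3
  omega

theorem NN_spec {y : ℤ} (hy : 216 ≤ y.natAbs) :
    108 * 2 ^ NN y ≤ y.natAbs ∧ y.natAbs < 216 * 2 ^ NN y := by
  have h0 : y.natAbs / 108 ≠ 0 := by omega
  have h1 := Nat.pow_log_le_self 2 h0
  have h2 := Nat.lt_pow_succ_log_self (b := 2) (by norm_num) (y.natAbs / 108)
  rw [show Nat.log 2 (y.natAbs / 108) = NN y from rfl] at h1 h2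
  rw [Nat.succ_eq_add_one, pow_succ] at h2
  generalize 2 ^ NN y = P at *
  omega

/-- classes modulo 27 prime to 3 -/
def cls : Finset ℕ := (Finset.range 27).filter (fun a => a % 3 ≠ 0)

theorem mem_cls {a : ℕ} : a ∈ cls ↔ a < 27 ∧ a % 3 ≠ 0 := by
  simp [cls]

theorem aE_cls {a : ℕ} (h : a ∈ cls) : aE a ∈ cls := by
  rw [mem_cls] at h ⊢
  rw [aE_eq]
  omega

theorem aO_cls (a : ℕ) : aO a ∈ cls := by
  rw [mem_cls, aO_eq]
  omega

theorem step2_cls (b : Bool) (s s' : ℕ × ℕ) (hs : s.1 ∈ cls) (h : step2 b s = some s') :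
    s'.1 ∈ cls := by
  cases b with
  | false =>
    rw [step2] at h
    split_ifs at h
    rw [Option.some_inj] at h
    rw [← h]
    exact aE_cls hs
  | true =>
    rw [step2] at h
    split_ifs at h
    rw [Option.some_inj] at h
    rw [← h]
    exact aO_cls _

theorem step1_cls (b : Bool) (s s' : PS) (hs : s.a ∈ cls) (h : step1 b s = some s') :
    s'.a ∈ cls := by
  cases b with
  | false =>
    rw [step1, nx] at h
    split_ifs at h
    rw [Option.some_inj] at h
    rw [← h]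
    exact aE_cls hs
  | true =>
    rw [step1, nx] at h
    split_ifs at h
    rw [Option.some_inj] at h
    rw [← h]
    exact aO_cls _

/-- initial state of a class -/
def init (a : ℕ) : PS := ⟨a, KF a, 1, 1, KF a + 1000000000⟩

/-- the total of a class with `m` grid steps and terminal weight `g` -/
def TG (g : ℕ × ℕ → ℕ) (m a : ℕ) : ℕ :=
  tot step1 (fun s => s.t * tot step2 g m (s.a, idx s.x)) 14 (init a)

/-- the total of a class, the first `N` steps only -/
def TI (N a : ℕ) : ℕ := tot step1 (fun s => s.t) N (init a)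

theorem card_le_one_of_sep {D : Finset ℤ} (hD : Sep 0 D) : D.card ≤ 1 := by
  rw [Finset.card_le_one]
  intro z hz z' hz'
  exact hD z hz z' hz' (by simp)

theorem sum_vv_le_TG (N : ℕ) (hN : 14 ≤ N) (a : ℕ) (B : Finset ℤ) (hB : Sep N B)
    (ha : ∀ y ∈ B, cl y = a) : ∑ y ∈ B, vv N y ≤ TG (fun _ => 1) (N - 14) a := by
  have h1 : ∀ y ∈ B, vv N y = val step1 (fin1 (N - 14)) 14 y (init a) := by
    intro y hy
    rw [vv, ha y hy, show min N 14 = 14 by omega]
    rfl
  rw [Finset.sum_congr rfl h1]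
  refine sum_val_le step1 (fin1 (N - 14)) _ (N - 14) ?_ 14 (init a) B ?_
  · intro s C hC
    have h2 := sum_val_le step2 (fun _ _ => 1) (fun _ => 1) 0 ?_ (N - 14) (s.a, idx s.x) C hC
    · calc ∑ z ∈ C, fin1 (N - 14) z s
          = s.t * ∑ z ∈ C, val step2 (fun _ _ => 1) (N - 14) z (s.a, idx s.x) := by
            rw [Finset.mul_sum]
            rfl
        _ ≤ _ := Nat.mul_le_mul_left _ h2
    · intro s D hD
      rw [Finset.sum_const, smul_eq_mul, mul_one]
      exact card_le_one_of_sep hD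
  · rw [show 14 + (N - 14) = N by omega]
    exact hB

theorem sum_vv_le_TI (N : ℕ) (hN : N ≤ 14) (a : ℕ) (B : Finset ℤ) (hB : Sep N B)
    (ha : ∀ y ∈ B, cl y = a) : ∑ y ∈ B, vv N y ≤ TI N a := by
  have h1 : ∀ y ∈ B, vv N y = val step1 (fin1 0) N y (init a) := by
    intro y hy
    rw [vv, ha y hy, show min N 14 = N by omega, Nat.sub_self]
    rfl
  rw [Finset.sum_congr rfl h1]
  refine sum_val_le step1 (fin1 0) _ 0 ?_ N (init a) B hB
  intro s C hC
  calc ∑ z ∈ C, fin1 0 z s = C.card * s.t := by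
        rw [Finset.sum_congr rfl (fun z _ => show fin1 0 z s = s.t by simp [fin1, val])]
        simp
    _ ≤ 1 * s.t := Nat.mul_le_mul_right _ (card_le_one_of_sep hC)
    _ = s.t := one_mul _

/-- sum over all lengths -/
theorem sum_TG_le (c : ℕ) (V : ℕ × ℕ → ℕ)
    (hV : ∀ s : ℕ × ℕ, s.1 ∈ cls → 2 * c + oe V (step2 false s) +
      oe V (step2 true s) ≤ 2 * V s) (m n : ℕ) {a : ℕ} (ha : a ∈ cls) :
    c * ∑ i ∈ Finset.range n, 2 ^ (n - i) * TG (fun _ => 1) (m + i) a ≤ 2 ^ n * TG V m a := by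
  have h1 := sum_tot_le step2 c V (fun s => s.1 ∈ cls) step2_cls hV n
  have h2 : ∀ s : PS, s.a ∈ cls →
      ∑ i ∈ Finset.range n, (c * 2 ^ (n - i)) *
        (s.t * tot step2 (fun _ => 1) (m + i) (s.a, idx s.x)) ≤
      2 ^ n * (s.t * tot step2 V m (s.a, idx s.x)) := by
    intro s hs
    have h3 : ∑ i ∈ Finset.range n, (c * 2 ^ (n - i)) *
        (s.t * tot step2 (fun _ => 1) (m + i) (s.a, idx s.x))
        = s.t * tot step2 (fun s' => ∑ i ∈ Finset.range n, (c * 2 ^ (n - i)) *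
          tot step2 (fun _ => 1) i s') m (s.a, idx s.x) := by
      rw [tot_sum, Finset.mul_sum]
      refine Finset.sum_congr rfl fun i _ => ?_
      rw [tot_mul, tot_tot]
      ring
    rw [h3]
    calc _ ≤ s.t * tot step2 (fun s' => 2 ^ n * V s') m (s.a, idx s.x) := by
          refine Nat.mul_le_mul_left _ ?_
          refine tot_mono step2 (fun s => s.1 ∈ cls) step2_cls ?_ m _ hs
          intro s' hs'
          have := h1 s' hs'
          rw [Finset.mul_sum] at this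
          refine le_trans (le_of_eq ?_) this
          refine Finset.sum_congr rfl fun i _ => ?_
          ring
      _ = _ := by rw [tot_mul]; ring
  have h4 := tot_mono step1 (fun s => s.a ∈ cls) step1_cls h2 14 (init a) ha
  rw [tot_sum, tot_mul] at h4
  refine le_trans (le_of_eq ?_) h4
  rw [Finset.mul_sum]
  refine Finset.sum_congr rfl fun i _ => ?_
  rw [tot_mul, TG]
  ring

theorem sep_block (N j : ℕ) (B : Finset ℤ)
    (hs : (∀ y ∈ B, 0 < y) ∨ (∀ y ∈ B, y < 0)) (a : ℕ) (ha : ∀ y ∈ B, cl y = a)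
    (hj : ∀ y ∈ B, 27 * 2 ^ N * j ≤ y.natAbs ∧ y.natAbs < 27 * 2 ^ N * (j + 1)) : Sep N B := by
  intro y hy y' hy' hd
  have e1 := ha y hy
  have e2 := ha y' hy'
  have h27 : (27 : ℤ) ∣ y - y' := by
    rw [← e2] at e1
    unfold cl at e1
    omega
  have hcop : IsCoprime (27 : ℤ) (2 ^ N) := by
    apply IsCoprime.pow_right
    norm_num
  have h1 : (27 : ℤ) * 2 ^ N ∣ y - y' := hcop.mul_dvd h27 hd
  refine eq_of_abs_sub_lt h1 ?_
  have a1 := hj y hy
  have a2 := hj y' hy'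
  have e3 : ((27 * 2 ^ N : ℕ) : ℤ) = 27 * 2 ^ N := by push_cast; ring
  rw [← e3]
  have h3 : 27 * 2 ^ N * (j + 1) = 27 * 2 ^ N * j + 27 * 2 ^ N := by ring
  rw [h3] at a1 a2
  generalize 27 * 2 ^ N * j = P at a1 a2
  generalize 27 * 2 ^ N = Q at a1 a2 ⊢
  rw [abs_lt]
  rcases hs with hs | hs
  · have := hs y hy
    have := hs y' hy'
    omega
  · have := hs y hy
    have := hs y' hy'
    omega

/-- The elements with `N` steps. -/
theorem per_N (N : ℕ) (U : ℕ → ℕ)
    (hU : ∀ a ∈ cls, ∀ C : Finset ℤ, Sep N C → (∀ y ∈ C, cl y = a) → ∑ y ∈ C, vv N y ≤ U a)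
    (A : Finset ℤ) (hs : (∀ y ∈ A, 0 < y) ∨ (∀ y ∈ A, y < 0)) (h3 : ∀ y ∈ A, y % 3 ≠ 0)
    (hb : ∀ y ∈ A, 216 ≤ y.natAbs) (hN : ∀ y ∈ A, NN y = N) :
    ∑ y ∈ A, (vv N y : ℝ) / (1000000000 * |(y : ℝ)|) ≤
      319 / 420 / 27000000000 * ((∑ a ∈ cls, U a : ℕ) : ℝ) / 2 ^ N := by
  classical
  set key : ℤ → ℕ × ℕ := fun y => (y.natAbs / (27 * 2 ^ N), cl y) with hkey
  set K : Finset (ℕ × ℕ) := Finset.Icc 4 7 ×ˢ cls with hK
  have hpos : 0 < 27 * 2 ^ N := by positivity
  have hmaps : ∀ y ∈ A, key y ∈ K := by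
    intro y hy
    rw [hkey, hK, Finset.mem_product, Finset.mem_Icc]
    obtain ⟨e1, e2⟩ := NN_spec (hb y hy)
    rw [hN y hy] at e1 e2
    refine ⟨⟨?_, ?_⟩, ?_⟩
    · simp only
      rw [Nat.le_div_iff_mul_le hpos]
      omega
    · simp only
      rw [← Nat.lt_succ_iff, Nat.div_lt_iff_lt_mul hpos]
      omega
    · simp only
      rw [mem_cls]
      refine ⟨cl_lt y, ?_⟩
      have := h3 y hy
      unfold cl
      omega
  rw [← Finset.sum_fiberwise_of_maps_to hmaps]
  have h2 : ∀ k ∈ K, ∑ y ∈ A.filter (fun y => key y = k),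
      (vv N y : ℝ) / (1000000000 * |(y : ℝ)|) ≤
      (U k.2 : ℝ) / 2 ^ N * (1 / (27000000000 * (k.1 : ℝ))) := by
    rintro ⟨j, a⟩ hk
    rw [hK, Finset.mem_product, Finset.mem_Icc] at hk
    obtain ⟨⟨hj4, hj7⟩, ha⟩ := hk
    simp only at hj4 hj7 ha ⊢
    set B := A.filter (fun y => key y = (j, a)) with hB
    have hB1 : ∀ y ∈ B, y ∈ A ∧ y.natAbs / (27 * 2 ^ N) = j ∧ cl y = a := by
      intro y hy
      rw [hB, Finset.mem_filter, hkey] at hy
      simp only [Prod.mk.injEq] at hy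
      exact ⟨hy.1, hy.2.1, hy.2.2⟩
    have hB2 : ∀ y ∈ B, 27 * 2 ^ N * j ≤ y.natAbs ∧ y.natAbs < 27 * 2 ^ N * (j + 1) := by
      intro y hy
      obtain ⟨-, e3, -⟩ := hB1 y hy
      constructor
      · have := Nat.div_mul_le_self y.natAbs (27 * 2 ^ N)
        rw [e3] at this
        linarith
      · have := Nat.lt_mul_div_succ y.natAbs hpos
        rw [e3] at this
        exact this
    have hsep : Sep N B := by
      refine sep_block N j B ?_ a (fun y hy => (hB1 y hy).2.2) hB2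
      rcases hs with h | h
      · exact Or.inl fun y hy => h y (hB1 y hy).1
      · exact Or.inr fun y hy => h y (hB1 y hy).1
    have h3 := hU a ha B hsep (fun y hy => (hB1 y hy).2.2)
    have hj0 : (0 : ℝ) < j := by exact_mod_cast (by omega : 0 < j)
    calc ∑ y ∈ B, (vv N y : ℝ) / (1000000000 * |(y : ℝ)|)
        ≤ ∑ y ∈ B, (vv N y : ℝ) * (1 / (2 ^ N) * (1 / (27000000000 * (j : ℝ)))) := by
          refine Finset.sum_le_sum fun y hy => ?_
          rw [div_eq_mul_inv]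
          have e1 : ((27 * 2 ^ N * j : ℕ) : ℝ) ≤ |(y : ℝ)| := by
            have e2 : |(y : ℝ)| = (y.natAbs : ℝ) := by
              rw [← Int.cast_abs, Int.abs_eq_natAbs]
              simp
            rw [e2]
            exact_mod_cast (hB2 y hy).1
          push_cast at e1
          have e3 : (1000000000 * |(y : ℝ)|)⁻¹ ≤
              1 / (2 ^ N) * (1 / (27000000000 * (j : ℝ))) := by
            rw [one_div_mul_one_div, ← one_div]
            apply one_div_le_one_div_of_le (by positivity)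
            linarith
          gcongr
      _ = (∑ y ∈ B, vv N y : ℕ) * (1 / (2 ^ N) * (1 / (27000000000 * (j : ℝ)))) := by
          rw [← Finset.sum_mul]
          push_cast
          rfl
      _ ≤ (U a : ℝ) * (1 / (2 ^ N) * (1 / (27000000000 * (j : ℝ)))) := by
          have e4 : ((∑ y ∈ B, vv N y : ℕ) : ℝ) ≤ (U a : ℝ) := by exact_mod_cast h3
          gcongr
      _ = _ := by ring
  refine (Finset.sum_le_sum h2).trans (le_of_eq ?_)
  rw [hK, Finset.sum_product]
  have e5 : ∀ j ∈ (Finset.Icc 4 7 : Finset ℕ), ∑ a ∈ cls,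
      (U a : ℝ) / 2 ^ N * (1 / (27000000000 * (j : ℝ)))
      = (1 / (27000000000 * (j : ℝ))) * ∑ a ∈ cls, (U a : ℝ) / 2 ^ N := by
    intro j _
    rw [Finset.mul_sum]
    exact Finset.sum_congr rfl fun a _ => by ring
  simp only
  rw [Finset.sum_congr rfl e5, ← Finset.sum_mul, ← Finset.sum_div]
  rw [show (Finset.Icc 4 7 : Finset ℕ) = ({4, 5, 6, 7} : Finset ℕ) by decide]
  rw [Finset.sum_insert (by decide), Finset.sum_insert (by decide), Finset.sum_insert (by decide),
    Finset.sum_singleton]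
  push_cast
  ring

/-- The elements with at least `N0 ≥ 14` steps. -/
theorem sum_vv_high (N0 : ℕ) (hN0 : 14 ≤ N0) (c : ℕ) (hc : 0 < c) (V : ℕ × ℕ → ℕ)
    (hV : ∀ s : ℕ × ℕ, s.1 ∈ cls → 2 * c + oe V (step2 false s) +
      oe V (step2 true s) ≤ 2 * V s)
    (A : Finset ℤ) (hs : (∀ y ∈ A, 0 < y) ∨ (∀ y ∈ A, y < 0)) (h3 : ∀ y ∈ A, y % 3 ≠ 0)
    (hb : ∀ y ∈ A, 216 ≤ y.natAbs) (hbig : ∀ y ∈ A, N0 ≤ NN y) :
    ∑ y ∈ A, (vv (NN y) y : ℝ) / (1000000000 * |(y : ℝ)|) ≤
      319 / 420 * (∑ a ∈ cls, TG V (N0 - 14) a : ℕ) / (27000000000 * c * 2 ^ N0) := by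
  classical
  obtain ⟨M, hM⟩ : ∃ M : ℕ, ∀ y ∈ A, NN y < N0 + M := by
    refine ⟨∑ y ∈ A, NN y + 1, fun y hy => ?_⟩
    have := Finset.single_le_sum (f := NN) (fun _ _ => Nat.zero_le _) hy
    omega
  have hmaps : ∀ y ∈ A, NN y - N0 ∈ Finset.range M := by
    intro y hy
    have e3 := hM y hy
    have e4 := hbig y hy
    rw [Finset.mem_range]
    omega
  rw [← Finset.sum_fiberwise_of_maps_to hmaps]
  have h2 : ∀ i ∈ Finset.range M, ∑ y ∈ A.filter (fun y => NN y - N0 = i),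
      (vv (NN y) y : ℝ) / (1000000000 * |(y : ℝ)|) ≤
      319 / 420 / 27000000000 * ∑ a ∈ cls, (TG (fun _ => 1) (N0 - 14 + i) a : ℝ) / 2 ^ (N0 + i) := by
    intro i _
    have hmem : ∀ y ∈ A.filter (fun y => NN y - N0 = i), y ∈ A ∧ NN y = N0 + i := by
      intro y hy
      rw [Finset.mem_filter] at hy
      have := hbig y hy.1
      exact ⟨hy.1, by omega⟩
    have e1 := per_N (N0 + i) (TG (fun _ => 1) (N0 - 14 + i)) (fun a _ C hC hCa => by
      have := sum_vv_le_TG (N0 + i) (by omega) a C hC hCa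
      rwa [show N0 + i - 14 = N0 - 14 + i by omega] at this)
      (A.filter (fun y => NN y - N0 = i))
      (by
        rcases hs with h | h
        · exact Or.inl fun y hy => h y (hmem y hy).1
        · exact Or.inr fun y hy => h y (hmem y hy).1)
      (fun y hy => h3 y (hmem y hy).1) (fun y hy => hb y (hmem y hy).1)
      (fun y hy => (hmem y hy).2)
    rw [Finset.sum_congr rfl (fun y hy => by rw [(hmem y hy).2])]
    refine e1.trans (le_of_eq ?_)
    rw [← Finset.sum_div]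
    push_cast
    ring
  refine (Finset.sum_le_sum h2).trans ?_
  rw [← Finset.mul_sum, Finset.sum_comm]
  have h5 : ∀ a ∈ cls, ∑ i ∈ Finset.range M,
        (TG (fun _ => 1) (N0 - 14 + i) a : ℝ) / 2 ^ (N0 + i) ≤ (TG V (N0 - 14) a : ℝ) / (c * 2 ^ N0) := by
    intro a ha
    have e1 := sum_TG_le c V hV (N0 - 14) M ha
    have e2 : (c : ℝ) * ∑ i ∈ Finset.range M, 2 ^ (M - i) * (TG (fun _ => 1) (N0 - 14 + i) a : ℝ)
        ≤ 2 ^ M * (TG V (N0 - 14) a : ℝ) := by exact_mod_cast e1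
    have e3 : ∑ i ∈ Finset.range M, 2 ^ (M - i) * (TG (fun _ => 1) (N0 - 14 + i) a : ℝ)
        = 2 ^ (N0 + M) * ∑ i ∈ Finset.range M,
          (TG (fun _ => 1) (N0 - 14 + i) a : ℝ) / 2 ^ (N0 + i) := by
      rw [Finset.mul_sum]
      refine Finset.sum_congr rfl fun i hi => ?_
      rw [Finset.mem_range] at hi
      rw [show N0 + M = (N0 + i) + (M - i) by omega, pow_add]
      field_simp
    rw [e3] at e2
    have hc' : (0 : ℝ) < c := by exact_mod_cast hc
    rw [le_div_iff₀ (by positivity)]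
    have e4 : (2 : ℝ) ^ M * ((∑ i ∈ Finset.range M,
        (TG (fun _ => 1) (N0 - 14 + i) a : ℝ) / 2 ^ (N0 + i)) * (c * 2 ^ N0))
        ≤ 2 ^ M * (TG V (N0 - 14) a : ℝ) := by
      refine le_trans (le_of_eq ?_) e2
      rw [pow_add]
      ring
    exact le_of_mul_le_mul_left e4 (by positivity)
  calc 319 / 420 / 27000000000 * ∑ a ∈ cls, ∑ i ∈ Finset.range M,
        (TG (fun _ => 1) (N0 - 14 + i) a : ℝ) / 2 ^ (N0 + i)
      ≤ 319 / 420 / 27000000000 * ∑ a ∈ cls, (TG V (N0 - 14) a : ℝ) / (c * 2 ^ N0) := by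
        have := Finset.sum_le_sum h5
        gcongr
    _ = _ := by
        rw [← Finset.sum_div]
        push_cast
        ring

/-- The elements with at least `9` steps. -/
theorem sum_vv_low (c : ℕ) (hc : 0 < c) (V : ℕ × ℕ → ℕ)
    (hV : ∀ s : ℕ × ℕ, s.1 ∈ cls → 2 * c + oe V (step2 false s) +
      oe V (step2 true s) ≤ 2 * V s)
    (A : Finset ℤ) (hs : (∀ y ∈ A, 0 < y) ∨ (∀ y ∈ A, y < 0)) (h3 : ∀ y ∈ A, y % 3 ≠ 0)
    (hb : ∀ y ∈ A, 216 ≤ y.natAbs) (hbig : ∀ y ∈ A, 9 ≤ NN y) :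
    ∑ y ∈ A, (vv (NN y) y : ℝ) / (1000000000 * |(y : ℝ)|) ≤
      319 / 420 / 27000000000 * ∑ i ∈ Finset.range 5,
        ((∑ a ∈ cls, TI (9 + i) a : ℕ) : ℝ) / 2 ^ (9 + i) +
      319 / 420 * (∑ a ∈ cls, TG V 0 a : ℕ) / (27000000000 * c * 2 ^ 14) := by
  classical
  rw [← Finset.sum_filter_add_sum_filter_not A (fun y => NN y < 14)]
  refine add_le_add ?_ ?_
  · have hmaps : ∀ y ∈ A.filter (fun y => NN y < 14), NN y - 9 ∈ Finset.range 5 := by
      intro y hy
      rw [Finset.mem_filter] at hy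
      have := hbig y hy.1
      rw [Finset.mem_range]
      omega
    rw [← Finset.sum_fiberwise_of_maps_to hmaps, Finset.mul_sum]
    refine Finset.sum_le_sum fun i hi => ?_
    rw [Finset.mem_range] at hi
    have hmem : ∀ y ∈ (A.filter (fun y => NN y < 14)).filter (fun y => NN y - 9 = i),
        y ∈ A ∧ NN y = 9 + i := by
      intro y hy
      rw [Finset.mem_filter, Finset.mem_filter] at hy
      have := hbig y hy.1.1
      exact ⟨hy.1.1, by omega⟩
    have e1 := per_N (9 + i) (TI (9 + i)) (fun a _ C hC hCa =>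
      sum_vv_le_TI (9 + i) (by omega) a C hC hCa)
      ((A.filter (fun y => NN y < 14)).filter (fun y => NN y - 9 = i))
      (by
        rcases hs with h | h
        · exact Or.inl fun y hy => h y (hmem y hy).1
        · exact Or.inr fun y hy => h y (hmem y hy).1)
      (fun y hy => h3 y (hmem y hy).1) (fun y hy => hb y (hmem y hy).1)
      (fun y hy => (hmem y hy).2)
    rw [Finset.sum_congr rfl (fun y hy => by rw [(hmem y hy).2])]
    refine e1.trans (le_of_eq ?_)
    ring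
  · have hmem : ∀ y ∈ A.filter (fun y => ¬ NN y < 14), y ∈ A ∧ 14 ≤ NN y := by
      intro y hy
      rw [Finset.mem_filter] at hy
      exact ⟨hy.1, by omega⟩
    exact sum_vv_high 14 le_rfl c hc V hV _
      (by
        rcases hs with h | h
        · exact Or.inl fun y hy => h y (hmem y hy).1
        · exact Or.inr fun y hy => h y (hmem y hy).1)
      (fun y hy => h3 y (hmem y hy).1) (fun y hy => hb y (hmem y hy).1)
      (fun y hy => (hmem y hy).2)

end Pool.Agent.Lib.MP_edb5be_nt.H26U
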