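import Mathlib
import Pool.Agent.Lib.MP_edb5be_nt.H26U.Sum
import Pool.Agent.Lib.MP_edb5be_nt.H26T.Pack

/-!
# The averages of the supersolution, computed with packed vectors
-/

set_option autoImplicit false

namespace Pool.Agent.Lib.MP_edb5be_nt.H26U

open Function H26T

/-- check of the supersolution in one class -/
noncomputable def chkV (a : ℕ) : ℕ → Bool := fun n =>
  Nat.rec (motive := fun _ => Bool) true (fun j ih => and (Nat.ble (Nat.add (Nat.add 170000
    (gnode VF (aE a) (Nat.sub j 41))) (gnode VF (aO a) (Nat.add j (sO j)))) (Nat.mul 2 (VF a j)))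
    ih) n

theorem chkV_spec (a n : ℕ) (h : chkV a n = true) : ∀ j < n,
    170000 + gnode VF (aE a) (j - 41) + gnode VF (aO a) (j + sO j) ≤ 2 * VF a j := by
  induction n with
  | zero => intro j hj; omega
  | succ n ih =>
    intro j hj
    have h1 : chkV a (n + 1) = and (Nat.ble (Nat.add (Nat.add 170000
      (gnode VF (aE a) (Nat.sub n 41))) (gnode VF (aO a) (Nat.add n (sO n)))) (Nat.mul 2 (VF a n)))
      (chkV a n) := rfl
    rw [h1, Bool.and_eq_true] at h
    rcases Nat.lt_or_ge j n with hjn | hjn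
    · exact ih h.2 j hjn
    · have : j = n := by omega
      subst this
      exact Nat.le_of_ble_eq_true h.1

set_option maxRecDepth 100000 in
theorem chkV_all : ∀ a ∈ [1, 2, 4, 5, 7, 8, 10, 11, 13, 14, 16, 17, 19, 20, 22, 23, 25, 26],
    chkV a 481 = true := by decide +kernel

theorem cls_list {a : ℕ} (h : a ∈ cls) :
    a ∈ [1, 2, 4, 5, 7, 8, 10, 11, 13, 14, 16, 17, 19, 20, 22, 23, 25, 26] := by
  have : ∀ a ∈ cls, a ∈ [1, 2, 4, 5, 7, 8, 10, 11, 13, 14, 16, 17, 19, 20, 22, 23, 25, 26] := by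
    decide
  exact this a h

theorem VF_large {a j : ℕ} (h : 439 < j) : VF a j = 4371714 + 10000 * (j - 439) := by
  rw [VF]
  have : Nat.ble j 439 = false := by
    rw [Bool.eq_false_iff]
    intro hcon
    have := Nat.le_of_ble_eq_true hcon
    omega
  rw [this]
  rfl

theorem gnode_le (f : ℕ → ℕ → ℕ) (a j : ℕ) : gnode f a j ≤ f a j := by
  rw [gnode]
  cases Nat.ble j (kk a) <;> simp

theorem VF_super {a : ℕ} (ha : a ∈ cls) (j : ℕ) :
    170000 + gnode VF (aE a) (j - 41) + gnode VF (aO a) (j + sO j) ≤ 2 * VF a j := by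
  rcases Nat.lt_or_ge j 481 with h | h
  · exact chkV_spec a 481 (chkV_all a (cls_list ha)) j h
  · have h1 := gnode_le VF (aE a) (j - 41)
    have h2 := gnode_le VF (aO a) (j + sO j)
    rw [VF_large (by omega)] at h1 h2 ⊢
    rw [sO_large (by omega)] at h2 ⊢
    generalize gnode VF (aE a) (j - 41) = A at *
    generalize gnode VF (aO a) (j + 24) = B at *
    omega

/-- the supersolution on states -/
def VS (s : ℕ × ℕ) : ℕ := VF s.1 s.2

theorem oe_step2_E (f : ℕ × ℕ → ℕ) (a j : ℕ) :
    oe f (step2 false (a, j)) = if j - 41 ≤ kk (aE a) then 0 else f (aE a, j - 41) := by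
  rw [step2]
  by_cases h : j - 41 ≤ kk (aE a)
  · rw [if_pos h, if_pos h, oe_none]
  · rw [if_neg h, if_neg h, oe_some]

theorem oe_step2_O (f : ℕ × ℕ → ℕ) (a j : ℕ) :
    oe f (step2 true (a, j)) = if j + sO j ≤ kk (aO a) then 0 else f (aO a, j + sO j) := by
  rw [step2]
  by_cases h : j + sO j ≤ kk (aO a)
  · rw [if_pos h, if_pos h, oe_none]
  · rw [if_neg h, if_neg h, oe_some]

theorem gnode_eq (f : ℕ → ℕ → ℕ) (a j : ℕ) : gnode f a j = if j ≤ kk a then 0 else f a j := by
  rw [gnode]
  by_cases h : j ≤ kk a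
  · rw [if_pos h, Nat.ble_eq_true_of_le h, cond_true]
  · rw [if_neg h]
    have : Nat.ble j (kk a) = false := by
      rw [Bool.eq_false_iff]
      intro hcon
      exact h (Nat.le_of_ble_eq_true hcon)
    rw [this, cond_false]

theorem VS_super (s : ℕ × ℕ) (hs : s.1 ∈ cls) :
    2 * 85000 + oe VS (step2 false s) + oe VS (step2 true s) ≤ 2 * VS s := by
  obtain ⟨a, j⟩ := s
  have h := VF_super hs j
  rw [oe_step2_E, oe_step2_O]
  rw [gnode_eq, gnode_eq] at h
  exact h

theorem tot_VS_le (n : ℕ) {a : ℕ} (ha : a ∈ cls) (j : ℕ) :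
    tot step2 VS n (a, j) ≤ 2 ^ n * VF a j := by
  refine tot_super step2 VS (fun s => s.1 ∈ cls) step2_cls ?_ n (a, j) ha
  intro s hs
  have := VS_super s hs
  omega

/-- the even part -/
def EP (P k : ℕ) : ℕ := Nat.mod (Nat.shiftLeft (Nat.shiftRight P (Nat.mul 80 (Nat.add k 1)))
  (Nat.mul 80 (Nat.add k 42))) (Nat.pow 2 61440)

/-- the low slots cleared -/
def CL (P k : ℕ) : ℕ := Nat.shiftLeft (Nat.shiftRight P (Nat.mul 80 (Nat.add k 1)))
  (Nat.mul 80 (Nat.add k 1))

/-- the odd part -/
def ob (P F : ℕ) : List (ℕ × ℕ) → ℕ → ℕ := fun l =>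
  List.rec (motive := fun _ => ℕ → ℕ) (fun _ => F) (fun e _ ih b =>
    Nat.add (slc P (Nat.add b e.2) e.1) (Nat.shiftLeft (ih (Nat.add b e.1)) (Nat.mul 80 e.1))) l

/-- check of the segments -/
def segOK : List (ℕ × ℕ) → ℕ → Bool
  | [], b => b == 744
  | e :: r, b => (List.range e.1).all (fun i => sO (b + i) == e.2) && segOK r (b + e.1)

/-- the segments of the odd step -/
def segs : List (ℕ × ℕ) := [(3, 46),
  (3, 45),
  (4, 44),
  (4, 43),
  (4, 42),
  (4, 41),
  (4, 40),
  (5, 39),
  (4, 38),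
  (6, 37),
  (5, 36),
  (7, 35),
  (6, 34),
  (8, 33),
  (8, 32),
  (10, 31),
  (11, 30),
  (14, 29),
  (17, 28),
  (24, 27),
  (41, 26),
  (247, 25),
  (305, 24)]

theorem segs_ok : segOK segs 0 = true := by decide +kernel

/-- the filler -/
def FL : ℕ := 619959557368193628744980749550233527677766564819826790915588236148248587323998824016785313903259961124496370389078669608888240184674639982363807577638759210998605646065922392849105375176637860005855046788495500809962731181484281128580355949585349337252736720334507464026033588228665267341660002587709371593501084025129498800636309062346106382539351919932742306879928533233545614516624994866785937714076311417241157777277426148743002776565247231460373076934727069788925585053082598260279107837288832568381949663401621134780060550786577037170267216743595748157586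

theorem FL_eq : FL = pk (fun i => 4371714 + 10000 * (i + 329)) 24 := by decide +kernel

theorem sO_le : ∀ j < 744, j + sO j < 768 := by decide +kernel

theorem EP_pk {f : ℕ → ℕ} (h : ∀ j < 768, f j < 2 ^ 80) {k : ℕ} (hk : k < 700) :
    EP (pk f 768) k = pk (fun j => if j < k + 42 then 0 else f (j - 41)) 768 := by
  obtain ⟨n, hn⟩ : ∃ n, 768 = k + 1 + n := ⟨767 - k, by omega⟩
  have e1 : Nat.shiftRight (pk f 768) (80 * (k + 1)) = pk (fun j => f (k + 1 + j)) n := by
    rw [hn]
    exact pk_shr (k + 1) n fun j hj => h j (by omega)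
  have e2 : EP (pk f 768) k = Nat.mod (Nat.shiftLeft (Nat.shiftRight (pk f 768) (80 * (k + 1)))
    (80 * (k + 42))) (2 ^ 61440) := rfl
  rw [e2, e1, pk_shl]
  rw [show k + 42 + n = 768 + 41 by omega, show 61440 = 80 * 768 by norm_num]
  rw [pk_mod 768 41]
  · refine pk_congr 768 fun j hj => ?_
    by_cases hjk : j < k + 42
    · rw [if_pos hjk, if_pos hjk]
    · rw [if_neg hjk, if_neg hjk]
      exact congrArg f (by omega)
  · intro j hj
    by_cases hjk : j < k + 42
    · rw [if_pos hjk]
      positivity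
    · rw [if_neg hjk]
      exact h _ (by omega)

theorem CL_pk {f : ℕ → ℕ} (h : ∀ j < 768, f j < 2 ^ 80) {k : ℕ} (hk : k < 700) :
    CL (pk f 768) k = pk (fun j => if j < k + 1 then 0 else f j) 768 := by
  obtain ⟨n, hn⟩ : ∃ n, 768 = k + 1 + n := ⟨767 - k, by omega⟩
  have e1 : Nat.shiftRight (pk f 768) (80 * (k + 1)) = pk (fun j => f (k + 1 + j)) n := by
    rw [hn]
    exact pk_shr (k + 1) n fun j hj => h j (by omega)
  have e2 : CL (pk f 768) k = Nat.shiftLeft (Nat.shiftRight (pk f 768) (80 * (k + 1)))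
    (80 * (k + 1)) := rfl
  rw [e2, e1, pk_shl, ← hn]
  refine pk_congr 768 fun j hj => ?_
  by_cases hjk : j < k + 1
  · rw [if_pos hjk, if_pos hjk]
  · rw [if_neg hjk, if_neg hjk]
    exact congrArg f (by omega)

theorem ob_pk {f F : ℕ → ℕ} (h : ∀ j < 768, f j < 2 ^ 80) (l : List (ℕ × ℕ)) :
    ∀ b, segOK l b = true → ob (pk f 768) (pk (fun i => F (744 + i)) 24) l b =
      pk (fun i => if b + i < 744 then f (b + i + sO (b + i)) else F (b + i)) (768 - b) := by
  induction l with
  | nil =>
    intro b hb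
    rw [segOK, beq_iff_eq] at hb
    subst hb
    show pk (fun i => F (744 + i)) 24 = _
    refine pk_congr 24 fun i hi => ?_
    rw [if_neg (by omega)]
  | cons e r ih =>
    intro b hb
    rw [segOK, Bool.and_eq_true, List.all_eq_true] at hb
    obtain ⟨h1, h2⟩ := hb
    have h1' : ∀ i < e.1, sO (b + i) = e.2 := by
      intro i hi
      exact beq_iff_eq.1 (h1 i (List.mem_range.2 hi))
    have hle : ∀ (l : List (ℕ × ℕ)) (b : ℕ), segOK l b = true → b ≤ 744 := by
      intro l
      induction l with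
      | nil =>
        intro b hb
        rw [segOK, beq_iff_eq] at hb
        omega
      | cons e r ih =>
        intro b hb
        rw [segOK, Bool.and_eq_true] at hb
        have := ih _ hb.2
        omega
    have h3 := hle r _ h2
    have h4 := ih _ h2
    have e1 : ob (pk f 768) (pk (fun i => F (744 + i)) 24) (e :: r) b =
      slc (pk f 768) (b + e.2) e.1 + Nat.shiftLeft (ob (pk f 768) (pk (fun i => F (744 + i)) 24) r
        (b + e.1)) (80 * e.1) := rfl
    rw [e1, h4, pk_shl]
    have e3 : e.1 = 0 ∨ b + e.2 + e.1 ≤ 768 := by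
      rcases Nat.eq_zero_or_pos e.1 with h0 | h0
      · exact Or.inl h0
      · right
        have h5 := h1' (e.1 - 1) (by omega)
        have h6 := sO_le (b + (e.1 - 1)) (by omega)
        omega
    have e4 : slc (pk f 768) (b + e.2) e.1 = pk (fun j => f (b + e.2 + j)) e.1 := by
      rcases e3 with h0 | h0
      · rw [h0, slc]
        show Nat.mod _ 1 = pk _ 0
        rw [pk]
        exact Nat.mod_one _
      · exact slc_pk h h0
    rw [e4, show 768 - b = e.1 + (768 - (b + e.1)) by omega, pk_len, pk_len]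
    rw [pk_congr (f := fun j => if j < e.1 then 0 else _) (g := fun _ => 0) e.1
      (fun j hj => by simp [hj]), pk_zero, Nat.zero_add]
    congr 1
    · refine pk_congr e.1 fun j hj => ?_
      rw [if_pos (by omega), h1' j hj]
      congr 1
      omega
    · congr 1
      refine pk_congr _ fun j hj => ?_
      rw [if_neg (by omega)]
      rw [show b + e.1 + (e.1 + j - e.1) = b + (e.1 + j) by omega]

/-- A packed upper bound of the averages. -/
def Rep (n a P : ℕ) : Prop := ∃ f : ℕ → ℕ, P = pk f 768 ∧ (∀ j < 768, f j ≤ 2 ^ n * 16777215) ∧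
  ∀ j < 768, tot step2 VS n (a, j) ≤ f j

theorem kk_lt (a : ℕ) : kk a < 700 := by
  have : kk a < 256 := Nat.mod_lt _ (by norm_num)
  omega

/-- the filler as a function -/
def FF (n j : ℕ) : ℕ := (4371714 + 10000 * (j - 415)) * 2 ^ n

theorem rep_step {n a PE PO : ℕ} (hn : n ≤ 52) (ha : a ∈ cls) (hE : Rep n (aE a) PE)
    (hO : Rep n (aO a) PO) :
    Rep (n + 1) a (Nat.add (EP PE (kk (aE a)))
      (ob (CL PO (kk (aO a))) (Nat.mul FL (Nat.pow 2 n)) segs 0)) := by
  obtain ⟨f, hPE, hf1, hf2⟩ := hE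
  obtain ⟨g, hPO, hg1, hg2⟩ := hO
  have hbd : 2 ^ n * 16777215 < 2 ^ 80 := by
    calc 2 ^ n * 16777215 ≤ 2 ^ 52 * 16777215 :=
          Nat.mul_le_mul_right _ (Nat.pow_le_pow_right (by norm_num) hn)
      _ < 2 ^ 80 := by norm_num
  have hf : ∀ j < 768, f j < 2 ^ 80 := fun j hj => lt_of_le_of_lt (hf1 j hj) hbd
  have hg : ∀ j < 768, g j < 2 ^ 80 := fun j hj => lt_of_le_of_lt (hg1 j hj) hbd
  rw [hPE, hPO, EP_pk hf (kk_lt _), CL_pk hg (kk_lt _)]
  have hF : Nat.mul FL (Nat.pow 2 n) = pk (fun i => FF n (744 + i)) 24 := by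
    show FL * 2 ^ n = _
    rw [FL_eq, pk_mul]
    refine pk_congr 24 fun i _ => ?_
    rw [FF, show 744 + i - 415 = i + 329 by omega]
  rw [hF, ob_pk (F := FF n) (fun j hj => by
    by_cases h : j < kk (aO a) + 1
    · simp only [h, if_true]; positivity
    · simp only [h, if_false]; exact hg j hj) segs 0 segs_ok]
  have hadd : ∀ x y : ℕ, Nat.add x y = x + y := fun _ _ => rfl
  rw [hadd, Nat.sub_zero, pk_add]
  refine ⟨_, rfl, ?_, ?_⟩
  · intro j hj
    simp only [Nat.zero_add]
    have h1 : (if j < kk (aE a) + 42 then 0 else f (j - 41)) ≤ 2 ^ n * 16777215 := by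
      split_ifs
      · exact Nat.zero_le _
      · exact hf1 _ (by omega)
    have h2 : (if j < 744 then (if j + sO j < kk (aO a) + 1 then 0 else g (j + sO j))
        else FF n j) ≤ 2 ^ n * 16777215 := by
      split_ifs with h3 h4
      · exact Nat.zero_le _
      · exact hg1 _ (sO_le j h3)
      · rw [FF, mul_comm]
        exact Nat.mul_le_mul_left _ (by omega)
    calc _ ≤ 2 ^ n * 16777215 + 2 ^ n * 16777215 := Nat.add_le_add h1 h2
      _ = _ := by rw [pow_succ]; ring
  · intro j hj
    simp only [Nat.zero_add]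
    rw [tot, oe_step2_E, oe_step2_O]
    refine Nat.add_le_add ?_ ?_
    · by_cases h : j - 41 ≤ kk (aE a)
      · rw [if_pos h]
        exact Nat.zero_le _
      · rw [if_neg h, if_neg (by omega)]
        exact hf2 _ (by omega)
    · by_cases h : j + sO j ≤ kk (aO a)
      · rw [if_pos h]
        exact Nat.zero_le _
      · rw [if_neg h]
        by_cases h3 : j < 744
        · rw [if_pos h3, if_neg (by omega)]
          exact hg2 _ (sO_le j h3)
        · rw [if_neg h3]
          have h4 := tot_VS_le n (aO_cls a) (j + sO j)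
          rw [sO_large (by omega)] at h4 ⊢
          rw [VF_large (by omega)] at h4
          rw [FF, mul_comm, show j - 415 = j + 24 - 439 by omega]
          exact h4

/-- numbers from 0 to 26 -/
def l27 : List ℕ := [0, 1, 2, 3, 4, 5, 6, 7, 8, 9, 10, 11, 12, 13, 14, 15, 16, 17, 18, 19, 20, 21, 22,
  23, 24, 25, 26]

/-- odd parts of all classes -/
def olist (F : ℕ) (l : List ℕ) : List ℕ :=
  l27.map (fun c => ob (CL (l.getD c 0) (kk c)) F segs 0)

/-- new vectors -/
def nlist (l ol : List ℕ) : List ℕ :=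
  l27.map (fun a => Nat.add (EP (l.getD (aE a) 0) (kk (aE a))) (ol.getD (aO a) 0))

/-- one backward step -/
def stp (n : ℕ) (l : List ℕ) : List ℕ := nlist l (olist (Nat.mul FL (Nat.pow 2 n)) l)

/-- the initial vectors -/
noncomputable def l0 : List ℕ := l27.map (fun a => Nat.add (pkb (VF a) 9 0)
  (Nat.shiftLeft (pkb (VF a) 8 512) 40960))

/-- the iteration -/
noncomputable def it (n : ℕ) : List ℕ :=
  Nat.rec (motive := fun _ => List ℕ) l0 (fun n ih => stp n ih) n

theorem l27_getD (f : ℕ → ℕ) {a : ℕ} (ha : a < 27) : (l27.map f).getD a 0 = f a := by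
  interval_cases a <;> rfl

theorem VF_le {a j : ℕ} (hj : j < 768) : VF a j ≤ 16777215 := by
  rcases Nat.lt_or_ge 439 j with h | h
  · rw [VF_large h]
    omega
  · rw [VF, Nat.ble_eq_true_of_le h, cond_true]
    have h1 := Nat.mod_lt (Nat.shiftRight (List.getD VT a 0) (Nat.mul 24 j))
      (show 16777216 > 0 by norm_num)
    exact Nat.le_of_lt_succ h1

theorem rep_zero {a : ℕ} (ha : a ∈ cls) : Rep 0 a (l0.getD a 0) := by
  have h1 : l0.getD a 0 = pkb (VF a) 9 0 + Nat.shiftLeft (pkb (VF a) 8 512) (80 * 512) :=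
    l27_getD _ (mem_cls.1 ha).1
  rw [h1, pkb_eq, pkb_eq, pk_shl]
  refine ⟨VF a, ?_, ?_, ?_⟩
  · rw [show (2 : ℕ) ^ 9 = 512 by norm_num, show (2 : ℕ) ^ 8 = 256 by norm_num,
      show 768 = 512 + 256 by norm_num, pk_len, pk_len]
    rw [pk_congr (f := fun j => if j < 512 then 0 else _) (g := fun _ => 0) 512
      (fun j hj => by simp [hj]), pk_zero, Nat.zero_add]
    have e1 : pk (fun j => VF a (0 + j)) 512 = pk (VF a) 512 := pk_congr 512 fun j _ => by simp
    have e2 : pk (fun j => if 512 + j < 512 then 0 else VF a (512 + (512 + j - 512))) 256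
        = pk (fun j => VF a (512 + j)) 256 := by
      refine pk_congr 256 fun j _ => ?_
      rw [if_neg (by omega)]
      exact congrArg (VF a) (by omega)
    rw [e1, e2]
  · intro j hj
    rw [pow_zero, one_mul]
    exact VF_le hj
  · intro j hj
    exact le_rfl

theorem rep_it (n : ℕ) (hn : n ≤ 53) : ∀ a ∈ cls, Rep n a ((it n).getD a 0) := by
  induction n with
  | zero => intro a ha; exact rep_zero ha
  | succ n ih =>
    intro a ha
    have ih' := ih (by omega)
    have hlt := (mem_cls.1 ha).1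
    have hO := aO_cls a
    have hOlt := (mem_cls.1 hO).1
    have e0 : it (n + 1) = stp n (it n) := rfl
    rw [e0, stp, nlist, l27_getD _ hlt, olist, l27_getD _ hOlt]
    exact rep_step (by omega) ha (ih' _ (aE_cls ha)) (ih' _ hO)

/-- lookup -/
def look (l : List ℕ) (n a j : ℕ) : ℕ := bif Nat.ble 768 j then Nat.mul (Nat.pow 2 n) (VF a j)
  else slot (l.getD a 0) j

theorem tot_le_look (n : ℕ) (hn : n ≤ 53) {a : ℕ} (ha : a ∈ cls) (j : ℕ) :
    tot step2 VS n (a, j) ≤ look (it n) n a j := by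
  rcases Nat.lt_or_ge j 768 with h | h
  · have h1 : Nat.ble 768 j = false := by
      rw [Bool.eq_false_iff]
      intro hcon
      have := Nat.le_of_ble_eq_true hcon
      omega
    obtain ⟨f, hf, hf1, hf2⟩ := rep_it n hn a ha
    have hbd : 2 ^ n * 16777215 < 2 ^ 80 := by
      calc 2 ^ n * 16777215 ≤ 2 ^ 53 * 16777215 :=
            Nat.mul_le_mul_right _ (Nat.pow_le_pow_right (by norm_num) hn)
        _ < 2 ^ 80 := by norm_num
    rw [look, h1, cond_false, hf, slot_pk (fun j hj => lt_of_le_of_lt (hf1 j hj) hbd) h]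
    exact hf2 j h
  · rw [look, Nat.ble_eq_true_of_le h, cond_true]
    exact tot_VS_le n ha j

theorem node_eq (f : ℕ → ℕ → ℕ → ℕ → ℕ → ℕ) (a x p q t : ℕ) :
    node f a x p q t = oe (fun s => f s.a s.x s.p s.q s.t) (nx a x p q t) := by
  rw [node, nx]
  by_cases h : x ≤ KF a
  · rw [if_pos h, Nat.ble_eq_true_of_le h, cond_true, oe_none]
  · rw [if_neg h]
    have : Nat.ble x (KF a) = false := by
      rw [Bool.eq_false_iff]
      intro hcon
      exact h (Nat.le_of_ble_eq_true hcon)
    rw [this, cond_false, oe_some]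
    rfl

theorem tr_eq (G : ℕ → ℕ → ℕ) : ∀ (n : ℕ) (s : PS), tr G n s.a s.x s.p s.q s.t =
    tot step1 (fun s => s.t * G s.a (idx s.x)) n s := by
  intro n
  induction n with
  | zero => intro s; rfl
  | succ n ih =>
    intro s
    have e1 : tr G (n + 1) s.a s.x s.p s.q s.t = node (tr G n) (aE s.a)
      ((s.x + 1000000001) / 2) (2 * s.p) s.q s.t + node (tr G n) (aO s.a)
      (3 * (s.x + 1000000000) * 100001 / 200000 + 1) (2 * s.p) (3 * s.q) s.t := rfl
    rw [e1, node_eq, node_eq, tot]
    have e2 : (fun s : PS => tr G n s.a s.x s.p s.q s.t) =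
        tot step1 (fun s => s.t * G s.a (idx s.x)) n := funext ih
    rw [e2]
    rfl

theorem TG_le (m : ℕ) (hm : m ≤ 53) {a : ℕ} (ha : a ∈ cls) :
    TG VS m a ≤ TT (look (it m) m) 14 a := by
  have e1 : TT (look (it m) m) 14 a = tr (look (it m) m) 14 (init a).a (init a).x (init a).p
    (init a).q (init a).t := rfl
  rw [e1, tr_eq, TG]
  refine tot_mono step1 (fun s => s.a ∈ cls) step1_cls ?_ 14 (init a) ha
  intro s hs
  exact Nat.mul_le_mul_left _ (tot_le_look m hm hs _)

/-- sum over the classes -/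
noncomputable def SS (m : ℕ) (L : List ℕ) : List ℕ → ℕ := fun l =>
  List.rec (motive := fun _ => ℕ) 0 (fun a _ ih => Nat.add (TT (look L m) 14 a) ih) l

theorem SS_eq (m : ℕ) : ∀ l : List ℕ, SS m (it m) l = (l.map (TT (look (it m) m) 14)).sum := by
  intro l
  induction l with
  | nil => rfl
  | cons a l ih =>
    rw [List.map_cons, List.sum_cons, ← ih]
    rfl

/-- the classes -/
def cl18 : List ℕ := [1, 2, 4, 5, 7, 8, 10, 11, 13, 14, 16, 17, 19, 20, 22, 23, 25, 26]

theorem sum_TG (m : ℕ) (hm : m ≤ 53) : ∑ a ∈ cls, TG VS m a ≤ SS m (it m) cl18 := by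
  have h1 : ∑ a ∈ cls, TG VS m a ≤ ∑ a ∈ cls, TT (look (it m) m) 14 a :=
    Finset.sum_le_sum fun a ha => TG_le m hm ha
  refine h1.trans (le_of_eq ?_)
  rw [SS_eq]
  have h2 : cls = cl18.toFinset := by decide
  rw [h2, List.sum_toFinset _ (by decide)]

end Pool.Agent.Lib.MP_edb5be_nt.H26U
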