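import Mathlib
import Pool.Agent.Lib.MP_edb5be_nt.H26U.DP

/-!
# The numerical values
-/

set_option autoImplicit false

namespace Pool.Agent.Lib.MP_edb5be_nt.H26U

open H26T

/-- sum over the classes, first `n` steps only -/
noncomputable def SI (n : ℕ) : List ℕ → ℕ := fun l =>
  List.rec (motive := fun _ => ℕ) 0 (fun a _ ih => Nat.add (TT (fun _ _ => 1) n a) ih) l

theorem SI_eq (n : ℕ) : ∀ l : List ℕ, SI n l = (l.map (TT (fun _ _ => 1) n)).sum := by
  intro l
  induction l with
  | nil => rfl
  | cons a l ih =>
    rw [List.map_cons, List.sum_cons, ← ih]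
    rfl

theorem TI_eq (n a : ℕ) : TI n a = TT (fun _ _ => 1) n a := by
  have e1 : TT (fun _ _ => 1) n a = tr (fun _ _ => 1) n (init a).a (init a).x (init a).p
    (init a).q (init a).t := rfl
  rw [e1, tr_eq, TI]
  simp only [mul_one]

theorem sum_TI (n : ℕ) : ∑ a ∈ cls, TI n a = SI n cl18 := by
  rw [SI_eq, Finset.sum_congr rfl (fun a _ => TI_eq n a)]
  have h2 : cls = cl18.toFinset := by decide
  rw [h2, List.sum_toFinset _ (by decide)]

theorem si9 : SI 9 cl18 ≤ 1892020130813 := by decide +kernel
theorem si10 : SI 10 cl18 ≤ 3424644375224 := by decide +kernel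
theorem si11 : SI 11 cl18 ≤ 6288691875093 := by decide +kernel
theorem si12 : SI 12 cl18 ≤ 11515962013176 := by decide +kernel
theorem si13 : SI 13 cl18 ≤ 21318637985887 := by decide +kernel

set_option maxRecDepth 100000 in
theorem num0 : SS 0 (it 0) cl18 ≤ 61109991336914261955 := by decide +kernel

set_option maxRecDepth 100000 in
theorem num3 : SS 3 (it 3) cl18 ≤ 413445599831449334386 := by decide +kernel

set_option maxRecDepth 100000 in
theorem num50 : SS 50 (it 50) cl18 ≤ 6465228958885975296922611423743282 := by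
  decide +kernel

end Pool.Agent.Lib.MP_edb5be_nt.H26U
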