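import Mathlib
import Pool.Agent.Lib.MP_edb5be_nt.H26U.Num

/-!
# Sums of reciprocals over pieces of trajectories
-/

set_option autoImplicit false

namespace Pool.Agent.Lib.MP_edb5be_nt.H26U

open Function H13 H26T

/-- the potential with a given number of terms -/
noncomputable def potc (κ : ℤ → ℝ) (M : ℕ) (z : ℤ) : ℝ :=
  (Finset.range (M + 1)).sup' ⟨0, by simp⟩ (term κ z)

theorem potc_low (κ : ℤ → ℝ) {M i : ℕ} (hi : i ≤ M) (z : ℤ) : term κ z i ≤ potc κ M z :=
  Finset.le_sup' (term κ z) (by rw [Finset.mem_range]; omega)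

theorem term_zero (κ : ℤ → ℝ) (z : ℤ) : term κ z 0 = κ z / |(z : ℝ)| := by
  rw [term, rs_zero]
  simp

theorem potc_nonneg (κ : ℤ → ℝ) (hκ : ∀ z, 0 ≤ κ z) (M : ℕ) (z : ℤ) : 0 ≤ potc κ M z := by
  refine le_trans ?_ (potc_low κ (Nat.zero_le M) z)
  rw [term_zero]
  exact div_nonneg (hκ z) (abs_nonneg _)

theorem potc_zero (κ : ℤ → ℝ) (z : ℤ) : potc κ 0 z = κ z / |(z : ℝ)| := by
  rw [← term_zero]
  rfl

theorem step_c (κ : ℤ → ℝ) {M M' : ℕ} (hM : M ≤ M' + 1) {t : ℝ} {z : ℤ} (h0 : 0 ≤ t)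
    (h : ∃ i, 1 ≤ i ∧ i ≤ M ∧
      κ z / |(z : ℝ)| + rs z i - κ (T^[i] z) / |((T^[i] z : ℤ) : ℝ)| ≤ t) :
    1 / |(z : ℝ)| + potc κ M z - potc κ M' (T z) ≤ t := by
  have hlow : ∀ i, i + 1 ≤ M → term κ z (i + 1) + 1 / |(z : ℝ)| ≤ potc κ M' (T z) := by
    intro i hi
    rw [← term_T]
    exact potc_low κ (by omega) (T z)
  obtain ⟨i0, hi0, h1⟩ := Finset.exists_mem_eq_sup' (⟨0, by simp⟩ : (Finset.range (M + 1)).Nonempty)
    (term κ z)
  have hpot : potc κ M z = term κ z i0 := h1
  rw [Finset.mem_range] at hi0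
  rcases Nat.eq_zero_or_pos i0 with rfl | hpos
  · obtain ⟨i, hi1, hi2, hi3⟩ := h
    obtain ⟨k, rfl⟩ : ∃ k, i = k + 1 := ⟨i - 1, by omega⟩
    have h2 := hlow k hi2
    rw [hpot]
    rw [term] at h2 ⊢
    rw [rs_zero]
    simp only [iterate_zero, id]
    linarith
  · obtain ⟨k, rfl⟩ : ∃ k, i0 = k + 1 := ⟨i0 - 1, by omega⟩
    have h2 := hlow k (by omega)
    rw [hpot]
    linarith

theorem step_e (κ : ℤ → ℝ) (hκ : ∀ z, 0 ≤ κ z) {M M' : ℕ} (hM : M ≤ M' + 1) (z : ℤ) :
    1 / |(z : ℝ)| + potc κ M z - potc κ M' (T z) ≤ (1 + κ z) / |(z : ℝ)| := by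
  have h0 : 0 ≤ 1 / |(z : ℝ)| := by positivity
  have h0' : 0 ≤ κ z / |(z : ℝ)| := div_nonneg (hκ z) (abs_nonneg _)
  obtain ⟨i0, hi0, h1⟩ := Finset.exists_mem_eq_sup' (⟨0, by simp⟩ : (Finset.range (M + 1)).Nonempty)
    (term κ z)
  have hpot : potc κ M z = term κ z i0 := h1
  rw [Finset.mem_range] at hi0
  rw [add_div]
  rcases Nat.eq_zero_or_pos i0 with rfl | hpos
  · have h2 := potc_nonneg κ hκ M' (T z)
    rw [hpot, term_zero]
    linarith
  · obtain ⟨k, rfl⟩ : ∃ k, i0 = k + 1 := ⟨i0 - 1, by omega⟩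
    have h2 : term κ z (k + 1) + 1 / |(z : ℝ)| ≤ potc κ M' (T z) := by
      rw [← term_T]
      exact potc_low κ (by omega) (T z)
    rw [hpot]
    linarith

/-- The potential inequality for a piece of a trajectory. -/
theorem path_sum (κ : ℤ → ℝ) (hκ : ∀ z, 0 ≤ κ z) (y : ℤ) (J : ℕ) (t : ℕ → ℝ) (N : ℕ → ℕ)
    (hN : ∀ i, i + 1 < J → N i ≤ N (i + 1) + 1) (hN1 : ∀ i < J, 1 ≤ N i)
    (ht0 : ∀ i < J, 0 ≤ t i)
    (hA : ∀ i < J, i + N i < J → ∃ r, 1 ≤ r ∧ r ≤ N i ∧
      κ (T^[i] y) / |((T^[i] y : ℤ) : ℝ)| + rs (T^[i] y) r -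
        κ (T^[r] (T^[i] y)) / |((T^[r] (T^[i] y) : ℤ) : ℝ)| ≤ t i)
    (hB : ∀ i < J, J ≤ i + N i → (1 + κ (T^[i] y)) / |((T^[i] y : ℤ) : ℝ)| ≤ t i) :
    ∑ i ∈ Finset.range J, 1 / |((T^[i] y : ℤ) : ℝ)| ≤ ∑ i ∈ Finset.range J, t i := by
  set M : ℕ → ℕ := fun i => min (N i) (J - 1 - i) with hM
  set D : ℕ → ℝ := fun i => if i < J then potc κ (M i) (T^[i] y) else 0 with hD
  have htel : ∑ i ∈ Finset.range J, (D i - D (i + 1)) = D 0 - D J :=
    Finset.sum_range_sub' D J
  have hDJ : D J = 0 := by simp [hD]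
  have hD0 : 0 ≤ D 0 := by
    simp only [hD]
    split_ifs
    · exact potc_nonneg κ hκ _ _
    · exact le_rfl
  have hstep : ∀ i ∈ Finset.range J, 1 / |((T^[i] y : ℤ) : ℝ)| + (D i - D (i + 1)) ≤ t i := by
    intro i hi
    rw [Finset.mem_range] at hi
    have hTz : T^[i + 1] y = T (T^[i] y) := iterate_succ_apply' T i y
    have e1 : D i = potc κ (M i) (T^[i] y) := by simp [hD, hi]
    rcases Nat.lt_or_ge (i + 1) J with h1 | h1
    · have e2 : D (i + 1) = potc κ (M (i + 1)) (T (T^[i] y)) := by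
        simp only [hD, h1, if_true, hTz]
      have hMM : M i ≤ M (i + 1) + 1 := by
        have := hN i h1
        simp only [hM]
        omega
      rw [e1, e2]
      rcases Nat.lt_or_ge (i + N i) J with h2 | h2
      · obtain ⟨r, hr1, hr2, hr3⟩ := hA i hi h2
        have := step_c κ hMM (ht0 i hi) ⟨r, hr1, by simp only [hM]; omega, hr3⟩
        linarith
      · have h3 := step_e κ hκ hMM (T^[i] y)
        have h4 := hB i hi h2
        linarith
    · have e2 : D (i + 1) = 0 := by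
        have : i + 1 = J := by omega
        rw [this, hDJ]
      have e3 : M i = 0 := by
        simp only [hM]
        omega
      have h4 := hB i hi (by have := hN1 i hi; omega)
      rw [e1, e2, e3, potc_zero]
      rw [add_div] at h4
      linarith
  have hsum := Finset.sum_le_sum hstep
  rw [Finset.sum_add_distrib, htel, hDJ] at hsum
  linarith

/-- The number of steps along a piece of a trajectory. -/
theorem end_sum (m : ℝ) (hm : 0 < m) (R J : ℕ) (z : ℕ → ℝ) (hz : ∀ i < J, m ≤ z i)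
    (S : Finset ℕ) (hS : ∀ i ∈ S, i < J ∧ 108 * 2 ^ (J - i) ≤ z i) :
    ∑ i ∈ S, 1 / z i ≤ R / m + 1 / (108 * 2 ^ R) := by
  classical
  set f : ℕ → ℝ := fun r => if r ≤ R then 1 / m else 1 / (108 * 2 ^ r) with hf
  have hf0 : ∀ r, 0 ≤ f r := by
    intro r
    simp only [hf]
    split_ifs <;> positivity
  have h1 : ∑ i ∈ S, 1 / z i ≤ ∑ i ∈ Finset.range J, f (J - i) := by
    have hsub : S ⊆ Finset.range J := fun i hi => Finset.mem_range.2 (hS i hi).1
    refine le_trans (Finset.sum_le_sum fun i hi => ?_) (Finset.sum_le_sum_of_subset_of_nonneg hsub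
      fun i _ _ => hf0 (J - i))
    obtain ⟨h2, h3⟩ := hS i hi
    simp only [hf]
    split_ifs
    · exact one_div_le_one_div_of_le hm (hz i h2)
    · exact one_div_le_one_div_of_le (by positivity) h3
  have h2 : ∑ i ∈ Finset.range J, f (J - i) = ∑ i ∈ Finset.range J, f (i + 1) := by
    rw [← Finset.sum_range_reflect (fun i => f (i + 1)) J]
    refine Finset.sum_congr rfl fun i hi => ?_
    rw [Finset.mem_range] at hi
    congr 1
    omega
  have h3 : ∀ J : ℕ, ∑ i ∈ Finset.range J, f (i + 1) ≤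
      (min J R : ℕ) / m + (1 / (108 * 2 ^ R) - 1 / (108 * 2 ^ (max J R))) := by
    intro J
    induction J with
    | zero => simp
    | succ J ih =>
      rw [Finset.sum_range_succ]
      rcases Nat.lt_or_ge J R with h | h
      · have e1 : f (J + 1) = 1 / m := by simp only [hf]; rw [if_pos (by omega)]
        rw [show min J R = J by omega, show max J R = R by omega] at ih
        rw [show min (J + 1) R = J + 1 by omega, show max (J + 1) R = R by omega, e1]
        push_cast
        rw [add_div]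
        linarith
      · have e1 : f (J + 1) = 1 / (108 * 2 ^ (J + 1)) := by simp only [hf]; rw [if_neg (by omega)]
        rw [show min J R = R by omega, show max J R = J by omega] at ih
        rw [show min (J + 1) R = R by omega, show max (J + 1) R = J + 1 by omega, e1]
        have e2 : (1 : ℝ) / (108 * 2 ^ J) = 2 * (1 / (108 * 2 ^ (J + 1))) := by
          rw [pow_succ]
          field_simp
        linarith
  rw [h2] at h1
  refine h1.trans ((h3 J).trans ?_)
  have h4 : ((min J R : ℕ) : ℝ) / m ≤ R / m := by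
    gcongr
    exact min_le_right _ _
  have h5 : (0 : ℝ) ≤ 1 / (108 * 2 ^ (max J R)) := by positivity
  linarith

theorem KF_le : ∀ a < 27, KF a ≤ 18000000000 := by decide +kernel

theorem kap_le (z : ℤ) : kap z ≤ 18 := by
  have h : (KF (cl z) : ℝ) ≤ 18000000000 := by exact_mod_cast KF_le _ (cl_lt z)
  rw [kap]
  linarith

theorem three_T {z : ℤ} (h : z % 3 ≠ 0) : T z % 3 ≠ 0 := by
  unfold T
  split_ifs with h2 <;> omega

theorem three_iter {z : ℤ} (h : z % 3 ≠ 0) (i : ℕ) : T^[i] z % 3 ≠ 0 := by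
  induction i with
  | zero => exact h
  | succ i ih => rw [iterate_succ_apply']; exact three_T ih

theorem T_pos' {x : ℤ} (h : 0 < x) : 0 < T x := by
  unfold T
  split_ifs with h1 <;> omega

theorem iter_pos' {x : ℤ} (h : 0 < x) (n : ℕ) : 0 < T^[n] x := by
  induction n with
  | zero => simpa using h
  | succ n ih => rw [iterate_succ_apply']; exact T_pos' ih

/-- Sum of the reciprocals over a piece of a trajectory, in terms of the values. -/
theorem path_main (y : ℤ) (hy : 0 < y) (h3 : y % 3 ≠ 0) (J m R : ℕ) (hm : 65536 ≤ m)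
    (hinj : ∀ a b, a < b → b < J → T^[a] y ≠ T^[b] y) (hlow : ∀ i < J, (m : ℤ) ≤ T^[i] y) :
    ∃ A : Finset ℤ, (∀ z ∈ A, 0 < z) ∧ (∀ z ∈ A, z % 3 ≠ 0) ∧ (∀ z ∈ A, (m : ℤ) ≤ z) ∧
      ∑ i ∈ Finset.range J, 1 / |((T^[i] y : ℤ) : ℝ)| ≤
        ∑ z ∈ A, (vv (NN z) z : ℝ) / (1000000000 * |(z : ℝ)|) +
          19 * ((R : ℝ) / m + 1 / (108 * 2 ^ R)) := by
  classical
  have hpos : ∀ i, 0 < T^[i] y := iter_pos' hy
  have hnat : ∀ i < J, m ≤ (T^[i] y).natAbs := by
    intro i hi
    have h1 := hlow i hi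
    have h2 := hpos i
    omega
  set N : ℕ → ℕ := fun i => NN (T^[i] y) with hN
  set t : ℕ → ℝ := fun i => if i + N i < J then
    (vv (N i) (T^[i] y) : ℝ) / (1000000000 * |((T^[i] y : ℤ) : ℝ)|)
    else 19 * (1 / |((T^[i] y : ℤ) : ℝ)|) with ht
  have hN1 : ∀ i < J, 1 ≤ N i := by
    intro i hi
    have h1 := hnat i hi
    simp only [hN, NN]
    refine Nat.le_log_of_pow_le (by norm_num) ?_
    rw [Nat.le_div_iff_mul_le (by norm_num)]
    omega
  have hmain := path_sum kap kap_nonneg y J t N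
    (fun i hi => by
      simp only [hN]
      rw [iterate_succ_apply']
      exact NN_T (by have := hnat i (by omega); omega)) hN1
    (fun i _ => by
      simp only [ht]
      split_ifs <;> positivity)
    (fun i hi hiN => by
      simp only [ht]
      rw [if_pos hiN]
      refine toll_sound (N := N i) ?_ (hN1 i hi)
      intro r hr
      rw [← iterate_add_apply]
      have h1 := hlow (r + i) (by omega)
      have h2 := hpos (r + i)
      rw [abs_of_pos h2]
      omega)
    (fun i hi hiN => by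
      simp only [ht]
      rw [if_neg (by omega)]
      rw [div_eq_mul_one_div]
      have h1 := kap_le (T^[i] y)
      have h2 : 0 ≤ 1 / |((T^[i] y : ℤ) : ℝ)| := by positivity
      nlinarith)
  set S1 := (Finset.range J).filter (fun i => i + N i < J) with hS1
  set S2 := (Finset.range J).filter (fun i => ¬ (i + N i < J)) with hS2
  have hsplit : ∑ i ∈ Finset.range J, t i = ∑ i ∈ S1, (vv (N i) (T^[i] y) : ℝ) /
      (1000000000 * |((T^[i] y : ℤ) : ℝ)|) + 19 * ∑ i ∈ S2, 1 / |((T^[i] y : ℤ) : ℝ)| := by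
    rw [← Finset.sum_filter_add_sum_filter_not (Finset.range J) (fun i => i + N i < J),
      Finset.mul_sum]
    congr 1
    · refine Finset.sum_congr rfl fun i hi => ?_
      rw [Finset.mem_filter] at hi
      simp only [ht]
      rw [if_pos hi.2]
    · refine Finset.sum_congr rfl fun i hi => ?_
      rw [Finset.mem_filter] at hi
      simp only [ht]
      rw [if_neg hi.2]
  have hinjS : Set.InjOn (fun i => T^[i] y) (S1 : Set ℕ) := by
    intro a ha b hb hab
    rw [Finset.mem_coe, hS1, Finset.mem_filter, Finset.mem_range] at ha hb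
    rcases lt_trichotomy a b with h | h | h
    · exact absurd hab (hinj a b h hb.1)
    · exact h
    · exact absurd hab.symm (hinj b a h ha.1)
  refine ⟨S1.image (fun i => T^[i] y), ?_, ?_, ?_, ?_⟩
  · intro z hz
    obtain ⟨i, -, rfl⟩ := Finset.mem_image.1 hz
    exact hpos i
  · intro z hz
    obtain ⟨i, -, rfl⟩ := Finset.mem_image.1 hz
    exact three_iter h3 i
  · intro z hz
    obtain ⟨i, hi, rfl⟩ := Finset.mem_image.1 hz
    rw [hS1, Finset.mem_filter, Finset.mem_range] at hi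
    exact hlow i hi.1
  · rw [Finset.sum_image hinjS]
    refine hmain.trans ?_
    rw [hsplit]
    have hend := end_sum (m : ℝ) (by exact_mod_cast (by omega : 0 < m)) R J
      (fun i => |((T^[i] y : ℤ) : ℝ)|) (fun i hi => by
        have h1 := hlow i hi
        have h2 := hpos i
        rw [abs_of_pos (by exact_mod_cast h2)]
        exact_mod_cast h1) S2 (fun i hi => by
        rw [hS2, Finset.mem_filter, Finset.mem_range] at hi
        refine ⟨hi.1, ?_⟩
        have h1 := (NN_spec (y := T^[i] y) (by have := hnat i hi.1; omega)).1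
        have h2 : 2 ^ (J - i) ≤ 2 ^ NN (T^[i] y) :=
          Nat.pow_le_pow_right (by norm_num) (by
            have := hi.2
            simp only [hN] at this
            omega)
        have h3 : 108 * 2 ^ (J - i) ≤ (T^[i] y).natAbs := by omega
        have h4 : |((T^[i] y : ℤ) : ℝ)| = ((T^[i] y).natAbs : ℝ) := by
          rw [← Int.cast_abs, Int.abs_eq_natAbs]
          simp
        show _ ≤ |((T^[i] y : ℤ) : ℝ)|
        rw [h4]
        exact_mod_cast h3)
    have : ∀ i, N i = NN (T^[i] y) := fun i => rfl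
    simp only [this]
    linarith

end Pool.Agent.Lib.MP_edb5be_nt.H26U
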