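import Mathlib
import Pool.Agent.Lib.MP_edb5be_nt.H26U.Path
import Pool.Agent.Lib.MP_edb5be_nt.H26U.Low

/-!
# Explicit bounds for the correction factor of every trajectory
-/

set_option autoImplicit false

namespace Pool.Agent.Lib.MP_edb5be_nt.H26U

open Function H13 H26T

theorem T_cast (n : ℕ) : T (n : ℤ) = (Tn n : ℤ) := by
  unfold T Tn
  split_ifs <;> omega

theorem iter_cast (n i : ℕ) : T^[i] (n : ℤ) = (Tn^[i] n : ℤ) := by
  induction i with
  | zero => rfl
  | succ i ih => rw [iterate_succ_apply', iterate_succ_apply', ih, T_cast]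

theorem NN_ge {y : ℤ} {m N : ℕ} (hy : m ≤ y.natAbs) (hm : 108 * 2 ^ N ≤ m) : N ≤ NN y := by
  rw [NN]
  refine Nat.le_log_of_pow_le (by norm_num) ?_
  rw [Nat.le_div_iff_mul_le (by norm_num)]
  omega

attribute [local irreducible] SS it TG SI TI

theorem tot0 : ∑ a ∈ cls, TG VS 0 a ≤ 61109991336914261955 :=
  le_trans (sum_TG 0 (by norm_num)) num0

theorem tot3 : ∑ a ∈ cls, TG VS (17 - 14) a ≤ 413445599831449334386 :=
  le_trans (sum_TG 3 (by norm_num)) num3

theorem tot50 : ∑ a ∈ cls, TG VS (64 - 14) a ≤ 6465228958885975296922611423743282 :=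
  le_trans (sum_TG 50 (by norm_num)) num50

theorem num_24 (X : ℕ) (h : X ≤ 413445599831449334386) :
    319 / 420 * (X : ℝ) / (27000000000 * ((85000 : ℕ) : ℝ) * 2 ^ 17) ≤ 10440 / 10000 := by
  have h3 : (X : ℝ) ≤ 413445599831449334386 := by exact_mod_cast h
  rw [div_le_iff₀ (by norm_num)]
  norm_num
  linarith

theorem num_71 (X : ℕ) (h : X ≤ 6465228958885975296922611423743282) :
    319 / 420 * (X : ℝ) / (27000000000 * ((85000 : ℕ) : ℝ) * 2 ^ 64) ≤ 1160 / 10000 := by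
  have h3 : (X : ℝ) ≤ 6465228958885975296922611423743282 := by exact_mod_cast h
  rw [div_le_iff₀ (by norm_num)]
  norm_num
  linarith

theorem num_16 (X X9 X10 X11 X12 X13 : ℕ) (h : X ≤ 61109991336914261955)
    (h9 : X9 ≤ 1892020130813) (h10 : X10 ≤ 3424644375224) (h11 : X11 ≤ 6288691875093)
    (h12 : X12 ≤ 11515962013176) (h13 : X13 ≤ 21318637985887) :
    319 / 420 / 27000000000 * ((X9 : ℝ) / 2 ^ 9 + (X10 : ℝ) / 2 ^ 10 + (X11 : ℝ) / 2 ^ 11 +
      (X12 : ℝ) / 2 ^ 12 + (X13 : ℝ) / 2 ^ 13) +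
      319 / 420 * (X : ℝ) / (27000000000 * ((85000 : ℕ) : ℝ) * 2 ^ 14) ≤ 16712 / 10000 := by
  have e : (X : ℝ) ≤ 61109991336914261955 := by exact_mod_cast h
  have e9 : (X9 : ℝ) ≤ 1892020130813 := by exact_mod_cast h9
  have e10 : (X10 : ℝ) ≤ 3424644375224 := by exact_mod_cast h10
  have e11 : (X11 : ℝ) ≤ 6288691875093 := by exact_mod_cast h11
  have e12 : (X12 : ℝ) ≤ 11515962013176 := by exact_mod_cast h12
  have e13 : (X13 : ℝ) ≤ 21318637985887 := by exact_mod_cast h13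
  norm_num
  linarith

/-- sums of reciprocals over pieces with terms at least `2^16` -/
theorem piece_16 (n : ℕ) (hn : 1 ≤ n) (h3 : n % 3 ≠ 0) (j : ℕ)
    (hinj : ∀ a b, a < b → b < j → Tn^[a] n ≠ Tn^[b] n) (hlow : ∀ i < j, 65536 ≤ Tn^[i] n) :
    ∑ i ∈ Finset.range j, 1 / (Tn^[i] n : ℝ) ≤ 1.6742 := by
  obtain ⟨A, hA1, hA2, hA3, hA⟩ := path_main (n : ℤ) (by omega) (by omega) j 65536 9 le_rfl
    (fun a b hab hb => by
      rw [iter_cast, iter_cast]
      exact_mod_cast hinj a b hab hb)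
    (fun i hi => by
      rw [iter_cast]
      exact_mod_cast hlow i hi)
  have h1 := sum_vv_low 85000 (by norm_num) VS VS_super A (Or.inl hA1) hA2
    (fun y hy => by have := hA3 y hy; omega)
    (fun y hy => NN_ge (m := 65536) (by have := hA3 y hy; omega) (by norm_num))
  have h2 : 319 / 420 / 27000000000 * ∑ i ∈ Finset.range 5,
        ((∑ a ∈ cls, TI (9 + i) a : ℕ) : ℝ) / 2 ^ (9 + i) +
      319 / 420 * (∑ a ∈ cls, TG VS 0 a : ℕ) / (27000000000 * ((85000 : ℕ) : ℝ) * 2 ^ 14) ≤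
      16712 / 10000 := by
    have e9 := (sum_TI 9).le.trans si9
    have e10 := (sum_TI 10).le.trans si10
    have e11 := (sum_TI 11).le.trans si11
    have e12 := (sum_TI 12).le.trans si12
    have e13 := (sum_TI 13).le.trans si13
    have h3 := num_16 _ _ _ _ _ _ tot0 e9 e10 e11 e12 e13
    rw [Finset.sum_range_succ, Finset.sum_range_succ, Finset.sum_range_succ,
      Finset.sum_range_succ, Finset.sum_range_succ, Finset.sum_range_zero, zero_add]
    exact h3
  have h4 : ∑ i ∈ Finset.range j, 1 / (Tn^[i] n : ℝ) =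
      ∑ i ∈ Finset.range j, 1 / |((T^[i] (n : ℤ) : ℤ) : ℝ)| := by
    refine Finset.sum_congr rfl fun i _ => ?_
    rw [iter_cast]
    simp
  rw [h4]
  refine hA.trans ((add_le_add (h1.trans h2) le_rfl).trans ?_)
  norm_num

/-- sums of reciprocals over pieces with terms at least `2^24` -/
theorem piece_24 (n : ℕ) (hn : 1 ≤ n) (h3 : n % 3 ≠ 0) (j : ℕ)
    (hinj : ∀ a b, a < b → b < j → Tn^[a] n ≠ Tn^[b] n) (hlow : ∀ i < j, 2 ^ 24 ≤ Tn^[i] n) :
    ∑ i ∈ Finset.range j, 1 / (Tn^[i] n : ℝ) ≤ 1.0441 := by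
  obtain ⟨A, hA1, hA2, hA3, hA⟩ := path_main (n : ℤ) (by omega) (by omega) j (2 ^ 24) 17
    (by norm_num)
    (fun a b hab hb => by
      rw [iter_cast, iter_cast]
      exact_mod_cast hinj a b hab hb)
    (fun i hi => by
      rw [iter_cast]
      exact_mod_cast hlow i hi)
  have h1 := (sum_vv_high 17 (by norm_num) 85000 (by norm_num) VS VS_super A (Or.inl hA1) hA2
    (fun y hy => by have := hA3 y hy; push_cast at this; omega)
    (fun y hy => NN_ge (m := 2 ^ 24) (by have := hA3 y hy; push_cast at this; omega)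
      (by norm_num))).trans (num_24 _ tot3)
  have h4 : ∑ i ∈ Finset.range j, 1 / (Tn^[i] n : ℝ) =
      ∑ i ∈ Finset.range j, 1 / |((T^[i] (n : ℤ) : ℤ) : ℝ)| := by
    refine Finset.sum_congr rfl fun i _ => ?_
    rw [iter_cast]
    simp
  rw [h4]
  refine hA.trans ((add_le_add h1 le_rfl).trans ?_)
  norm_num

/-- sums of reciprocals over pieces with terms at least `2^71` -/
theorem piece_71 (n : ℕ) (hn : 1 ≤ n) (h3 : n % 3 ≠ 0) (j : ℕ)
    (hinj : ∀ a b, a < b → b < j → Tn^[a] n ≠ Tn^[b] n) (hlow : ∀ i < j, 2 ^ 71 ≤ Tn^[i] n) :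
    ∑ i ∈ Finset.range j, 1 / (Tn^[i] n : ℝ) ≤ 0.1161 := by
  obtain ⟨A, hA1, hA2, hA3, hA⟩ := path_main (n : ℤ) (by omega) (by omega) j (2 ^ 71) 64
    (by norm_num)
    (fun a b hab hb => by
      rw [iter_cast, iter_cast]
      exact_mod_cast hinj a b hab hb)
    (fun i hi => by
      rw [iter_cast]
      exact_mod_cast hlow i hi)
  have h1 := (sum_vv_high 64 (by norm_num) 85000 (by norm_num) VS VS_super A (Or.inl hA1) hA2
    (fun y hy => by have := hA3 y hy; push_cast at this; omega)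
    (fun y hy => NN_ge (m := 2 ^ 71) (by have := hA3 y hy; push_cast at this; omega)
      (by norm_num))).trans (num_71 _ tot50)
  have h4 : ∑ i ∈ Finset.range j, 1 / (Tn^[i] n : ℝ) =
      ∑ i ∈ Finset.range j, 1 / |((T^[i] (n : ℤ) : ℤ) : ℝ)| := by
    refine Finset.sum_congr rfl fun i _ => ?_
    rw [iter_cast]
    simp
  rw [h4]
  refine hA.trans ((add_le_add h1 le_rfl).trans ?_)
  norm_num

/-- from sums of reciprocals to correction factors, multiples of 3 included -/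
theorem factor (m : ℕ) (hm : 1 ≤ m) (S E : ℝ) (hE1 : 1 ≤ E)
    (hE : Real.exp (1 / 4 * (S + 1 / m)) ≤ E)
    (hS : ∀ n, 1 ≤ n → n % 3 ≠ 0 → ∀ j, (∀ a b, a < b → b < j → Tn^[a] n ≠ Tn^[b] n) →
      (∀ i < j, m ≤ Tn^[i] n) → ∑ i ∈ Finset.range j, 1 / (Tn^[i] n : ℝ) ≤ S)
    (n : ℕ) (hn : 1 ≤ n) (j : ℕ) (hinj : ∀ a b, a < b → b < j → Tn^[a] n ≠ Tn^[b] n)
    (hlow : ∀ i < j, m ≤ Tn^[i] n) : rt n j ≤ (1 + 1 / (3 * m)) * E := by
  have hm0 : (0 : ℝ) < m := by exact_mod_cast hm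
  have key : ∀ n, 1 ≤ n → n % 3 ≠ 0 → ∀ j, (∀ a b, a < b → b < j → Tn^[a] n ≠ Tn^[b] n) →
      (∀ i < j, m ≤ Tn^[i] n) → rt n j ≤ E := by
    intro n hn h3 j hinj hlow
    rcases Nat.eq_zero_or_pos j with rfl | hj
    · rw [rt_zero hn]
      exact hE1
    · refine (rt_le hn j).trans ((Real.exp_le_exp.2 ?_).trans hE)
      have h1 := hS n hn h3 j hinj hlow
      have h2 : (m : ℝ) ≤ n := by exact_mod_cast hlow 0 hj
      have h4 := one_div_le_one_div_of_le hm0 h2
      linarith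
  have h1m : (0 : ℝ) ≤ 1 / (3 * m) := by positivity
  induction n using Nat.strong_induction_on generalizing j with
  | _ n ih =>
    by_cases h3 : n % 3 = 0
    · rcases Nat.eq_zero_or_pos j with rfl | hj
      · rw [rt_zero hn]
        nlinarith
      · obtain ⟨k, rfl⟩ : ∃ k, j = 1 + k := ⟨j - 1, by omega⟩
        have hinj' : ∀ a b, a < b → b < k → Tn^[a] (Tn n) ≠ Tn^[b] (Tn n) := by
          intro a b hab hb
          have := hinj (a + 1) (b + 1) (by omega) (by omega)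
          rwa [iterate_succ_apply, iterate_succ_apply] at this
        have hlow' : ∀ i < k, m ≤ Tn^[i] (Tn n) := by
          intro i hi
          have := hlow (i + 1) (by omega)
          rwa [iterate_succ_apply] at this
        rw [rt_add hn, rt_one hn, iterate_one]
        by_cases h2 : n % 2 = 0
        · rw [if_pos h2, one_mul]
          have hT := Tn_even h2
          exact ih (Tn n) (by omega) (by omega) k hinj' hlow'
        · rw [if_neg h2]
          have hT := Tn_odd h2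
          have h4 := key (Tn n) (by omega) (by omega) k hinj' hlow'
          have h5 : (m : ℝ) ≤ n := by exact_mod_cast hlow 0 (by omega)
          have h6 : 1 / (3 * (n : ℝ)) ≤ 1 / (3 * (m : ℝ)) :=
            one_div_le_one_div_of_le (by positivity) (by linarith)
          have h7 : (0 : ℝ) ≤ 1 / (3 * (n : ℝ)) := by positivity
          exact mul_le_mul (by linarith) h4 (rt_pos (Tn_pos hn) k).le (by linarith)
    · have h4 := key n hn h3 j hinj hlow
      nlinarith

theorem rt_16 (n : ℕ) (hn : 1 ≤ n) (j : ℕ) (hinj : ∀ a b, a < b → b < j → Tn^[a] n ≠ Tn^[b] n)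
    (hlow : ∀ i < j, 65536 ≤ Tn^[i] n) : rt n j ≤ 1.5199 := by
  refine (factor 65536 (by norm_num) 1.6742 1.51985 (by norm_num) ?_ piece_16 n hn j hinj
    hlow).trans (by norm_num)
  have h := Real.exp_bound' (x := 1 / 4 * (1.6742 + 1 / ((65536 : ℕ) : ℝ))) (by norm_num)
    (by norm_num) (n := 7) (by norm_num)
  refine h.trans ?_
  simp only [Finset.sum_range_succ, Finset.sum_range_zero, Nat.factorial]
  norm_num

theorem rt_24 (n : ℕ) (hn : 1 ≤ n) (j : ℕ) (hinj : ∀ a b, a < b → b < j → Tn^[a] n ≠ Tn^[b] n)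
    (hlow : ∀ i < j, 2 ^ 24 ≤ Tn^[i] n) : rt n j ≤ 1.3 := by
  refine (factor (2 ^ 24) (by norm_num) 1.0441 1.299 (by norm_num) ?_ piece_24 n hn j hinj
    hlow).trans (by norm_num)
  have h := Real.exp_bound' (x := 1 / 4 * (1.0441 + 1 / ((2 ^ 24 : ℕ) : ℝ))) (by norm_num)
    (by norm_num) (n := 6) (by norm_num)
  refine h.trans ?_
  simp only [Finset.sum_range_succ, Finset.sum_range_zero, Nat.factorial]
  norm_num

theorem rt_71 (n : ℕ) (hn : 1 ≤ n) (j : ℕ) (hinj : ∀ a b, a < b → b < j → Tn^[a] n ≠ Tn^[b] n)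
    (hlow : ∀ i < j, 2 ^ 71 ≤ Tn^[i] n) : rt n j ≤ 1.03 := by
  refine (factor (2 ^ 71) (by norm_num) 0.1161 1.0299 (by norm_num) ?_ piece_71 n hn j hinj
    hlow).trans (by norm_num)
  have h := Real.exp_bound' (x := 1 / 4 * (0.1161 + 1 / ((2 ^ 71 : ℕ) : ℝ))) (by norm_num)
    (by norm_num) (n := 4) (by norm_num)
  refine h.trans ?_
  simp only [Finset.sum_range_succ, Finset.sum_range_zero, Nat.factorial]
  norm_num

/-- **Explicit bound for every trajectory**: distinct terms, none of them `1`. -/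
theorem rt_all (n : ℕ) (hn : 1 ≤ n) (j : ℕ) (hinj : ∀ a b, a < b → b < j → Tn^[a] n ≠ Tn^[b] n)
    (h1 : ∀ i < j, Tn^[i] n ≠ 1) : rt n j ≤ 1.92 := by
  by_cases hall : ∀ i < j, 65536 ≤ Tn^[i] n
  · exact (rt_16 n hn j hinj hall).trans (by norm_num)
  · push Not at hall
    obtain ⟨a, ha1, ha2, ha3⟩ : ∃ a, a < j ∧ Tn^[a] n < 65536 ∧ ∀ i < a, 65536 ≤ Tn^[i] n := by
      have hex : ∃ i, i < j ∧ Tn^[i] n < 65536 := hall
      obtain ⟨h1, h2⟩ := Nat.find_spec hex
      refine ⟨Nat.find hex, h1, h2, fun i hi => ?_⟩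
      have h3 := Nat.find_min hex hi
      by_contra hcon
      exact h3 ⟨by omega, by omega⟩
    obtain ⟨b, rfl⟩ : ∃ b, j = a + b := ⟨j - a, by omega⟩
    rw [rt_add hn]
    have h2 := rt_16 n hn a (fun c d hcd hd => hinj c d hcd (by omega)) ha3
    have h3 := low_le (Tn^[a] n) (iter_pos hn a) ha2 b (fun i hi => by
      rw [← iterate_add_apply]
      exact h1 (i + a) (by omega))
    calc rt n a * rt (Tn^[a] n) b ≤ 1.5199 * 1.257 :=
          mul_le_mul h2 h3 (rt_pos (iter_pos hn a) b).le (by norm_num)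
      _ ≤ 1.92 := by norm_num

end Pool.Agent.Lib.MP_edb5be_nt.H26U
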